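import Pool.Agent.R638.BRW.Stm

/-! Piece A1 for MP_b68431_pr. -/

open MeasureTheory ProbabilityTheory Set Filter Topology

namespace Pool.Agent.R638.BRW

namespace A1

/-- the fixed point equation for `2 (min m r + 1)`. -/
lemma phi_eq (m r : ℕ) : (2 * ((min m r : ℕ) + 1) : ℝ) = (if m = r then 1 else 0) +
    (2 * ((min (m + 1) r : ℕ) + 1) + (if m = 0 then 0 else (2 * ((min (m - 1) r : ℕ) + 1) : ℝ))) / 2 := by
  rcases lt_trichotomy m r with h | h | h
  · rw [if_neg h.ne, Nat.min_eq_left h.le, Nat.min_eq_left (by omega : m + 1 ≤ r),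
      Nat.min_eq_left (by omega : m - 1 ≤ r)]
    rcases Nat.eq_zero_or_pos m with h0 | h0
    · subst h0; simp; norm_num
    · rw [if_neg h0.ne', Nat.cast_sub h0]; push_cast; ring
  · subst h
    rw [if_pos rfl, Nat.min_eq_left le_rfl, Nat.min_eq_right (by omega : m ≤ m + 1),
      Nat.min_eq_left (by omega : m - 1 ≤ m)]
    rcases Nat.eq_zero_or_pos m with h0 | h0
    · subst h0; simp; norm_num
    · rw [if_neg h0.ne', Nat.cast_sub h0]; push_cast; ring
  · rw [if_neg h.ne', Nat.min_eq_right h.le, Nat.min_eq_right (by omega : r ≤ m + 1),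
      Nat.min_eq_right (by omega : r ≤ m - 1), if_neg (by omega)]
    ring

lemma Gam_nonneg (n m r : ℕ) : 0 ≤ Gam n m r := by
  induction n generalizing m with
  | zero => simp [Gam]
  | succ n ih =>
    rw [Gam]
    have h1 := ih (m + 1)
    have h2 := ih (m - 1)
    split_ifs <;> linarith

lemma Gam_le (n m r : ℕ) : Gam n m r ≤ 2 * ((min m r : ℕ) + 1) := by
  induction n generalizing m with
  | zero => simp only [Gam]; positivity
  | succ n ih =>
    rw [Gam, phi_eq]
    have h1 := ih (m + 1)
    have h2 := ih (m - 1)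
    split_ifs <;> linarith

lemma Gam_mono (n m r : ℕ) : Gam n m r ≤ Gam (n + 1) m r := by
  induction n generalizing m with
  | zero => simp only [Gam]; split_ifs <;> simp
  | succ n ih =>
    rw [Gam, Gam.eq_2 (n := n + 1)]
    have h1 := ih (m + 1)
    have h2 := ih (m - 1)
    split_ifs <;> linarith

lemma exists_lim (m r : ℕ) : ∃ L : ℝ, Tendsto (fun n => Gam n m r) atTop (𝓝 L) ∧
    L ≤ 2 * ((min m r : ℕ) + 1) := by
  have hm : Monotone (fun n => Gam n m r) := monotone_nat_of_le_succ fun n => Gam_mono n m r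
  have hb : BddAbove (Set.range fun n => Gam n m r) :=
    ⟨2 * ((min m r : ℕ) + 1), by rintro _ ⟨n, rfl⟩; exact Gam_le n m r⟩
  refine ⟨_, tendsto_atTop_ciSup hm hb, ciSup_le fun n => Gam_le n m r⟩

lemma lim (m r : ℕ) : Tendsto (fun n => Gam n m r) atTop (𝓝 (2 * ((min m r : ℕ) + 1))) := by
  choose L hL hle using fun m => exists_lim m r
  have hfix : ∀ m, L m = (if m = r then 1 else 0) +
      (L (m + 1) + (if m = 0 then 0 else L (m - 1))) / 2 := by
    intro m
    have h1 : Tendsto (fun n => Gam (n + 1) m r) atTop (𝓝 (L m)) :=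
      (tendsto_add_atTop_iff_nat 1).2 (hL m)
    have h2 : Tendsto (fun n => Gam (n + 1) m r) atTop (𝓝 ((if m = r then 1 else 0) +
      (L (m + 1) + (if m = 0 then 0 else L (m - 1))) / 2)) := by
      simp only [Gam]
      refine Tendsto.add tendsto_const_nhds (Tendsto.div_const (Tendsto.add (hL _) ?_) 2)
      split_ifs
      · exact tendsto_const_nhds
      · exact hL _
    exact tendsto_nhds_unique h1 h2
  set D : ℕ → ℝ := fun m => 2 * ((min m r : ℕ) + 1) - L m with hD
  have hDfix : ∀ m, D m = (D (m + 1) + (if m = 0 then 0 else D (m - 1))) / 2 := by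
    intro m
    have h1 := phi_eq m r
    have h2 := hfix m
    simp only [hD]
    split_ifs at h1 h2 ⊢ <;> linarith
  have hlin : ∀ m, D m = (m + 1) * D 0 ∧ D (m + 1) = (m + 2) * D 0 := by
    intro m
    induction m with
    | zero =>
      have := hDfix 0
      simp at this
      constructor
      · simp
      · simp; linarith
    | succ m ih =>
      have := hDfix (m + 1)
      simp only [Nat.add_eq_zero_iff, one_ne_zero, and_false, if_false, Nat.add_sub_cancel] at this
      refine ⟨?_, ?_⟩
      · rw [ih.2]; push_cast; ring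
      · rw [ih.1, ih.2] at this
        push_cast
        linarith
  have hD0 : ∀ m, 0 ≤ D m := fun m => by have := hle m; simp only [hD]; linarith
  have hLn : ∀ m, 0 ≤ L m := fun m => ge_of_tendsto' (hL m) fun n => Gam_nonneg n m r
  have hDb : ∀ m, D m ≤ 2 * (r + 1) := by
    intro m
    have h1 : ((min m r : ℕ) : ℝ) ≤ r := by exact_mod_cast Nat.min_le_right m r
    have h2 := hLn m
    simp only [hD]; linarith
  have hzero : D 0 = 0 := by
    by_contra h
    have hpos : 0 < D 0 := lt_of_le_of_ne (hD0 0) (Ne.symm h)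
    obtain ⟨N, hN⟩ := exists_nat_gt ((2 * (r + 1)) / D 0)
    rw [div_lt_iff₀ hpos] at hN
    have h1 := hDb N
    rw [(hlin N).1] at h1
    nlinarith
  have : L m = 2 * ((min m r : ℕ) + 1) := by
    have h1 := (hlin m).1
    rw [hzero, mul_zero] at h1
    simp only [hD] at h1
    linarith
  rw [← this]
  exact hL m

end A1

/-- PIECE A1. -/
theorem tA1 : StmA1 :=
  ⟨fun n m r => ⟨A1.Gam_nonneg n m r, A1.Gam_le n m r, A1.Gam_mono n m r⟩, fun m r => A1.lim m r⟩

end Pool.Agent.R638.BRW

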