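import Pool.Agent.R638.BRW.Stm

/-! Piece A2: first and second moments. -/

open MeasureTheory ProbabilityTheory Set Filter Topology
open scoped ENNReal NNReal

namespace Pool.Agent.R638.BRW

theorem be_succ (k : ℕ) : be (k + 1) = (al k).1 + 2 * be k := rfl

theorem al_ge (k : ℕ) : be k ≤ (al k).1 ∧ 1 ≤ be k := by
  induction k with
  | zero => simp [al, be]
  | succ k ih =>
    have h1 : be (k + 1) = (al k).1 + 2 * be k := rfl
    have h2 : (al (k + 1)).1 = 2 * (al k).1 + 3 * be k := rfl
    rw [h1, h2]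
    omega

theorem be_pos (k : ℕ) : 1 ≤ be k := (al_ge k).2

theorem be_grow (k : ℕ) : 3 * be k ≤ be (k + 1) := by
  have := (al_ge k).1
  rw [be_succ]
  omega

theorem be_grow' (j m : ℕ) : 3 ^ m * be j ≤ be (j + m) := by
  induction m with
  | zero => simp
  | succ m ih =>
    have := be_grow (j + m)
    rw [pow_succ]
    have h2 : j + (m + 1) = j + m + 1 := by ring
    rw [h2]
    nlinarith

/-- Real version of `be`. -/
noncomputable def Br (k : ℕ) : ℝ := (be k : ℝ)

theorem Br_pos (k : ℕ) : 0 < Br k := by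
  have := be_pos k
  unfold Br
  exact_mod_cast this

theorem Br_ge_one (k : ℕ) : 1 ≤ Br k := by
  have := be_pos k
  unfold Br
  exact_mod_cast this

theorem be_ofReal (k : ℕ) : (be k : ℝ≥0∞) = ENNReal.ofReal (Br k) := by
  unfold Br
  rw [ENNReal.ofReal_natCast]

/-- The layer function `Θ(i - j)/β_i`. -/
noncomputable def lf (j : ℕ) (Θ : ℕ → ℝ) (i : ℕ) : ℝ := if j ≤ i then Θ (i - j) / Br i else 0

/-- Transition probabilities between layers, real version. -/
noncomputable def pr (i k : ℕ) : ℝ := if k = i + 1 ∨ i = k + 1 then 1 / (4 * Br i * Br k) else 0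

theorem pr_nonneg (i k : ℕ) : 0 ≤ pr i k := by
  unfold pr
  have := Br_pos i
  have := Br_pos k
  split_ifs <;> positivity

theorem pp_eq (x z : VV) : pp x z = ENNReal.ofReal (pr (lay x) (lay z)) := by
  unfold pp pr
  have h1 := Br_pos (lay x)
  have h2 := Br_pos (lay z)
  by_cases h : GG.Adj x z
  · have h' : lay z = lay x + 1 ∨ lay x = lay z + 1 := h
    rw [if_pos h, if_pos h', be_ofReal, be_ofReal, one_div, ENNReal.ofReal_inv_of_pos (by positivity),
      ENNReal.ofReal_mul (by positivity), ENNReal.ofReal_mul (by positivity)]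
    norm_num
  · have h' : ¬ (lay z = lay x + 1 ∨ lay x = lay z + 1) := h
    rw [if_neg h, if_neg h']
    simp

section

variable {P : VV → PMF VV} (hP : ∀ x y, P x y = pp x y)

include hP

open Classical in
theorem tsum_pt (x z : VV) (a : ℝ) (_ha : 0 ≤ a) :
    ∑' y, P x y * ENNReal.ofReal (if y = z then a else 0) =
      ENNReal.ofReal (pr (lay x) (lay z) * a) := by
  rw [tsum_eq_single z]
  · rw [if_pos rfl, hP, pp_eq, ENNReal.ofReal_mul (pr_nonneg _ _)]
  · intro y hy
    rw [if_neg hy]
    simp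

theorem tsum_lf (hK : StmK1) (x : VV) (j m : ℕ) (hx : lay x = j + m) (Θ : ℕ → ℝ)
    (hΘ : ∀ i, 0 ≤ Θ i) :
    ∑' y, P x y * ENNReal.ofReal (lf j Θ (lay y)) =
      ENNReal.ofReal ((Θ (m + 1) + (if m = 0 then 0 else Θ (m - 1))) / (4 * Br (lay x))) := by
  have h1 := hK.2 x fun i => ENNReal.ofReal (lf j Θ i)
  have h0 : ∑' y, P x y * ENNReal.ofReal (lf j Θ (lay y)) =
      ∑' y, pp x y * ENNReal.ofReal (lf j Θ (lay y)) := by
    refine tsum_congr fun y => ?_
    rw [hP]
  rw [h0, h1]
  have hb1 := Br_pos (lay x + 1)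
  have hb2 := Br_pos (lay x - 1)
  have hb3 := Br_pos (lay x)
  have e1 : (be (lay x + 1) : ℝ≥0∞) * ENNReal.ofReal (lf j Θ (lay x + 1)) =
      ENNReal.ofReal (Θ (m + 1)) := by
    rw [be_ofReal, ← ENNReal.ofReal_mul hb1.le]
    congr 1
    unfold lf
    rw [if_pos (by omega)]
    have : lay x + 1 - j = m + 1 := by omega
    rw [this]
    field_simp
  have e2 : (if lay x = 0 then (0 : ℝ≥0∞) else
      be (lay x - 1) * ENNReal.ofReal (lf j Θ (lay x - 1))) =
      ENNReal.ofReal (if m = 0 then 0 else Θ (m - 1)) := by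
    by_cases hm : m = 0
    · subst hm
      rw [if_pos rfl, ENNReal.ofReal_zero]
      by_cases h : lay x = 0
      · rw [if_pos h]
      · rw [if_neg h]
        unfold lf
        rw [if_neg (by omega)]
        simp
    · rw [if_neg hm, if_neg (by omega), be_ofReal, ← ENNReal.ofReal_mul hb2.le]
      congr 1
      unfold lf
      rw [if_pos (by omega)]
      have : lay x - 1 - j = m - 1 := by omega
      rw [this]
      field_simp
  rw [e1, e2, be_ofReal]
  have h4 : (4 : ℝ≥0∞) = ENNReal.ofReal 4 := by norm_num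
  rw [h4, ← ENNReal.ofReal_mul (by norm_num), ← ENNReal.ofReal_add (hΘ _) (by split_ifs; exacts [le_rfl, hΘ _]),
    ← ENNReal.ofReal_div_of_pos (by positivity)]

open Classical in
/-- Sums of point masses and a layer function. -/
theorem tsum_comb (hK : StmK1) (x z z' : VV) (j m : ℕ) (hx : lay x = j + m) (a a' : ℝ)
    (ha : 0 ≤ a) (ha' : 0 ≤ a') (Θ : ℕ → ℝ) (hΘ : ∀ i, 0 ≤ Θ i) :
    ∑' y, P x y * ENNReal.ofReal ((if y = z then a else 0) + (if y = z' then a' else 0) +
      lf j Θ (lay y)) =
      ENNReal.ofReal (pr (lay x) (lay z) * a + pr (lay x) (lay z') * a' +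
        (Θ (m + 1) + (if m = 0 then 0 else Θ (m - 1))) / (4 * Br (lay x))) := by
  have hlf : ∀ i, 0 ≤ lf j Θ i := by
    intro i
    unfold lf
    have := Br_pos i
    split_ifs
    · exact div_nonneg (hΘ _) this.le
    · exact le_rfl
  have h1 : ∀ y, P x y * ENNReal.ofReal ((if y = z then a else 0) + (if y = z' then a' else 0) +
      lf j Θ (lay y)) = P x y * ENNReal.ofReal (if y = z then a else 0) +
      P x y * ENNReal.ofReal (if y = z' then a' else 0) +
      P x y * ENNReal.ofReal (lf j Θ (lay y)) := by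
    intro y
    rw [ENNReal.ofReal_add (by positivity) (hlf _),
      ENNReal.ofReal_add (by positivity) (by positivity), mul_add, mul_add]
  simp only [h1]
  have hq : 0 ≤ (Θ (m + 1) + (if m = 0 then 0 else Θ (m - 1))) / (4 * Br (lay x)) := by
    have := Br_pos (lay x)
    have h2 := hΘ (m + 1)
    have h3 : 0 ≤ (if m = 0 then 0 else Θ (m - 1)) := by split_ifs; exacts [le_rfl, hΘ _]
    positivity
  rw [ENNReal.tsum_add, ENNReal.tsum_add, tsum_pt hP x z a ha, tsum_pt hP x z' a' ha',
    tsum_lf hP hK x j m hx Θ hΘ, ENNReal.ofReal_add (by have := pr_nonneg (lay x) (lay z); have := pr_nonneg (lay x) (lay z'); positivity) hq,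
    ENNReal.ofReal_add (mul_nonneg (pr_nonneg _ _) ha) (mul_nonneg (pr_nonneg _ _) ha')]

/-- The centred Green function. -/
noncomputable def Gc (n r m : ℕ) : ℝ := Gam n m r - (if m = r then 1 else 0)

omit hP in
theorem Gc_one (r m : ℕ) : Gc 1 r m = 0 := by
  unfold Gc
  rw [Gam]
  simp [Gam]

omit hP in
theorem Gc_succ (n r m : ℕ) : Gc (n + 2) r m =
    (Gc (n + 1) r (m + 1) + (if m = 0 then 0 else Gc (n + 1) r (m - 1))) / 2 +
    (if r = m + 1 ∨ m = r + 1 then 1 / 2 else 0) := by
  unfold Gc
  rw [Gam]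
  by_cases h0 : m = 0
  · subst h0
    by_cases h1 : r = 1
    · subst h1
      simp
      ring
    · have h2 : ¬ (0 + 1 = r) := by omega
      have h3 : ¬ (r = 0 + 1 ∨ 0 = r + 1) := by omega
      rw [if_neg h2, if_neg h3]
      simp
  · rw [if_neg h0, if_neg h0]
    by_cases h1 : r = m + 1
    · have h2 : m + 1 = r := by omega
      have h3 : ¬ (m - 1 = r) := by omega
      rw [if_pos h2, if_neg h3, if_pos (Or.inl h1)]
      ring
    · by_cases h4 : m = r + 1
      · have h2 : ¬ (m + 1 = r) := by omega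
        have h3 : m - 1 = r := by omega
        rw [if_neg h2, if_pos h3, if_pos (Or.inr h4)]
        ring
      · have h2 : ¬ (m + 1 = r) := by omega
        have h3 : ¬ (m - 1 = r) := by omega
        have h5 : ¬ (r = m + 1 ∨ m = r + 1) := by omega
        rw [if_neg h2, if_neg h3, if_neg h5]
        ring

omit hP in
theorem Gc_nonneg (hA : StmA1) (n r m : ℕ) : 0 ≤ Gc (n + 1) r m := by
  have h1 : ∀ n, Gc (n + 1) r m ≤ Gc (n + 2) r m := fun n => by
    unfold Gc
    have := (hA.1 (n + 1) m r).2.2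
    linarith
  induction n with
  | zero => rw [Gc_one]
  | succ n ih => exact ih.trans (h1 n)

omit hP in
theorem pr_shift (j m r : ℕ) : pr (j + m) (j + r) =
    (if r = m + 1 ∨ m = r + 1 then 1 / (4 * Br (j + m) * Br (j + r)) else 0) := by
  unfold pr
  by_cases h : r = m + 1 ∨ m = r + 1
  · rw [if_pos h, if_pos (by omega)]
  · rw [if_neg h, if_neg (by omega)]

open Classical in
/-- The first moments. -/
theorem gE_formula (hK : StmK1) (hA : StmA1) (j r : ℕ) (z : VV) (hz : lay z = j + r) (n : ℕ) :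
    ∀ (m : ℕ) (x : VV), lay x = j + m →
    2 * ∑' y, P x y * gE P (AA j) n y z =
      ENNReal.ofReal (Gc (n + 1) r m / (Br (lay x) * Br (lay z))) := by
  induction n with
  | zero =>
    intro m x hx
    simp [gE, Gc_one]
  | succ n ih =>
    intro m x hx
    have hbz := Br_pos (lay z)
    have hbx := Br_pos (lay x)
    have h1 : ∀ y, P x y * gE P (AA j) (n + 1) y z = P x y * ENNReal.ofReal
        ((if y = z then 1 else 0) + (if y = z then 0 else 0) +
          lf j (fun m => Gc (n + 1) r m / Br (lay z)) (lay y)) := by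
      intro y
      congr 1
      rw [gE]
      by_cases hy : y ∈ AA j
      · have hy' : j ≤ lay y := hy
        rw [if_pos hy, ih (lay y - j) y (by omega)]
        unfold lf
        rw [if_pos hy']
        have h2 : 0 ≤ Gc (n + 1) r (lay y - j) := Gc_nonneg hA _ _ _
        have hby := Br_pos (lay y)
        have h3 : Gc (n + 1) r (lay y - j) / (Br (lay y) * Br (lay z)) =
            Gc (n + 1) r (lay y - j) / Br (lay z) / Br (lay y) := by
          field_simp
        rw [h3, ite_self, add_zero, ENNReal.ofReal_add (by positivity) (by positivity)]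
        congr 1
        by_cases hyz : y = z
        · rw [if_pos hyz, if_pos hyz]
          simp
        · rw [if_neg hyz, if_neg hyz]
          simp
      · have hy' : ¬ (j ≤ lay y) := hy
        have hyz : y ≠ z := by
          rintro rfl
          omega
        rw [if_neg hy, if_neg hyz, if_neg hyz]
        unfold lf
        rw [if_neg hy']
        simp
    simp only [h1]
    rw [tsum_comb hP hK x z z j m hx 1 0 zero_le_one le_rfl _
      (fun i => div_nonneg (Gc_nonneg hA _ _ _) hbz.le)]
    have h2 : (2 : ℝ≥0∞) = ENNReal.ofReal 2 := by norm_num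
    rw [h2, ← ENNReal.ofReal_mul (by norm_num)]
    congr 1
    rw [Gc_succ]
    rw [hx, hz, pr_shift]
    have hb1 := Br_pos (j + m)
    have hb2 := Br_pos (j + r)
    by_cases h5 : m = 0
    · subst h5
      simp only [if_true]
      by_cases h6 : r = 0 + 1 ∨ 0 = r + 1
      · rw [if_pos h6, if_pos h6]
        field_simp
        ring
      · rw [if_neg h6, if_neg h6]
        field_simp
        ring
    · simp only [if_neg h5]
      by_cases h6 : r = m + 1 ∨ m = r + 1
      · rw [if_pos h6, if_pos h6]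
        field_simp
        ring
      · rw [if_neg h6, if_neg h6]
        field_simp
        ring

/-- Green function limit. -/
noncomputable def Ps (r m : ℕ) : ℝ := 2 * (min m r + 1) - (if m = r then 1 else 0)

omit hP in
theorem Gc_le (hA : StmA1) (n r m : ℕ) : Gc n r m ≤ Ps r m := by
  unfold Gc Ps
  have := (hA.1 n m r).2.1
  linarith

omit hP in
theorem Ps_nonneg (r m : ℕ) : 0 ≤ Ps r m := by
  unfold Ps
  have : (0 : ℝ) ≤ ((min m r : ℕ) : ℝ) := Nat.cast_nonneg _
  split_ifs <;> linarith

omit hP in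
theorem Ps_le (r m : ℕ) : Ps r m ≤ 2 * (m + 1) ∧ Ps r m ≤ 2 * (r + 1) := by
  unfold Ps
  have h1 : ((min m r : ℕ) : ℝ) ≤ m := by exact_mod_cast min_le_left m r
  have h2 : ((min m r : ℕ) : ℝ) ≤ r := by exact_mod_cast min_le_right m r
  constructor <;> split_ifs <;> linarith

omit hP in
theorem Ps_rec (r m : ℕ) : (Ps r (m + 1) + (if m = 0 then 0 else Ps r (m - 1))) / 2 +
    (if r = m + 1 ∨ m = r + 1 then 1 / 2 else 0) = Ps r m := by
  unfold Ps
  rcases Nat.lt_trichotomy m r with h | h | h
  · -- m < r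
    have e1 : min m r = m := by omega
    have e2 : min (m + 1) r = m + 1 := by omega
    rw [e1, e2, if_neg (show ¬ (m = r) by omega)]
    by_cases h0 : m = 0
    · subst h0
      by_cases h1 : r = 1
      · subst h1
        norm_num
      · rw [if_neg (show ¬ (0 + 1 = r) by omega), if_neg (show ¬ (r = 0 + 1 ∨ 0 = r + 1) by omega)]
        norm_num
    · rw [if_neg h0]
      have e3 : min (m - 1) r = m - 1 := by omega
      rw [e3, if_neg (show ¬ (m - 1 = r) by omega), Nat.cast_sub (by omega)]
      push_cast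
      by_cases h1 : r = m + 1
      · rw [if_pos (show m + 1 = r by omega), if_pos (Or.inl h1)]
        ring
      · rw [if_neg (show ¬ (m + 1 = r) by omega), if_neg (show ¬ (r = m + 1 ∨ m = r + 1) by omega)]
        ring
  · subst h
    have e2 : min (m + 1) m = m := by omega
    rw [e2, min_self, if_neg (show ¬ (m + 1 = m) by omega),
      if_neg (show ¬ (m = m + 1 ∨ m = m + 1) by omega), if_pos rfl]
    by_cases h0 : m = 0
    · subst h0
      norm_num
    · rw [if_neg h0, if_neg (show ¬ (m - 1 = m) by omega)]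
      have e3 : min (m - 1) m = m - 1 := by omega
      rw [e3, Nat.cast_sub (by omega)]
      push_cast
      ring
  · have e1 : min m r = r := by omega
    have e2 : min (m + 1) r = r := by omega
    have e3 : min (m - 1) r = r := by omega
    rw [e1, e2, e3, if_neg (show ¬ (m = r) by omega), if_neg (show ¬ (m + 1 = r) by omega),
      if_neg (show ¬ (m = 0) by omega)]
    by_cases h1 : m = r + 1
    · rw [if_pos (show m - 1 = r by omega), if_pos (Or.inr h1)]
      ring
    · rw [if_neg (show ¬ (m - 1 = r) by omega), if_neg (show ¬ (r = m + 1 ∨ m = r + 1) by omega)]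
      ring

/-- The concave part. -/
noncomputable def Sc (m : ℕ) : ℝ := 81 * (1 - (2 / 3) ^ (m + 1))

omit hP in
theorem Sc_nonneg (m : ℕ) : 0 ≤ Sc m := by
  unfold Sc
  have : ((2 : ℝ) / 3) ^ (m + 1) ≤ 1 := pow_le_one₀ (by norm_num) (by norm_num)
  linarith

omit hP in
theorem Sc_rec (m : ℕ) : (Sc (m + 1) + (if m = 0 then 0 else Sc (m - 1))) / 2 +
    9 / 2 * (2 / 3) ^ m = Sc m := by
  unfold Sc
  rcases Nat.eq_zero_or_pos m with h | h
  · subst h
    norm_num
  · obtain ⟨k, rfl⟩ : ∃ k, m = k + 1 := ⟨m - 1, by omega⟩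
    rw [if_neg (by omega)]
    simp only [Nat.add_sub_cancel, pow_succ]
    ring

omit hP in
theorem four_sq_le (m : ℕ) : 4 * (m + 1) ^ 2 ≤ 9 * 2 ^ m := by
  have key : ∀ k, 4 * (k + 2 + 1) ^ 2 ≤ 9 * 2 ^ (k + 2) := by
    intro k
    induction k with
    | zero => norm_num
    | succ k ih =>
      have h2 : 2 ^ (k + 1 + 2) = 2 * 2 ^ (k + 2) := by ring
      rw [h2]
      nlinarith [ih, Nat.zero_le (k * k)]
  rcases Nat.lt_or_ge m 2 with h | h
  · interval_cases m <;> norm_num
  · obtain ⟨k, rfl⟩ : ∃ k, m = k + 2 := ⟨m - 2, by omega⟩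
    exact key k

omit hP in
/-- The main inequality for the supersolution. -/
theorem quad_le (j m r r' : ℕ) : 1 / 2 * (Ps r m * Ps r' m) / Br (j + m) ≤
    9 / 2 * (2 / 3) ^ m / Br j := by
  have h1 := (Ps_le r m).1
  have h2 := (Ps_le r' m).1
  have h3 := Ps_nonneg r m
  have h4 := Ps_nonneg r' m
  have hm : (0 : ℝ) ≤ m := Nat.cast_nonneg m
  have h5 : Ps r m * Ps r' m ≤ (2 * (m + 1)) * (2 * (m + 1)) :=
    mul_le_mul h1 h2 h4 (by positivity)
  have h6 : (3 : ℝ) ^ m * Br j ≤ Br (j + m) := by
    unfold Br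
    exact_mod_cast be_grow' j m
  have h7 : (4 : ℝ) * (m + 1) ^ 2 ≤ 9 * 2 ^ m := by exact_mod_cast four_sq_le m
  have hb := Br_pos j
  have hb' := Br_pos (j + m)
  rw [div_le_div_iff₀ hb' hb]
  have h8 : (2 / 3 : ℝ) ^ m * 3 ^ m = 2 ^ m := by
    rw [← mul_pow]
    norm_num
  have h9 : 9 / 2 * (2 / 3 : ℝ) ^ m * (3 ^ m * Br j) ≤ 9 / 2 * (2 / 3) ^ m * Br (j + m) :=
    mul_le_mul_of_nonneg_left h6 (by positivity)
  have h10 : 9 / 2 * (2 / 3 : ℝ) ^ m * (3 ^ m * Br j) = 9 / 2 * 2 ^ m * Br j := by
    rw [← h8]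
    ring
  have h11 : 1 / 2 * (Ps r m * Ps r' m) * Br j ≤ 9 / 2 * 2 ^ m * Br j := by
    refine mul_le_mul_of_nonneg_right ?_ hb.le
    nlinarith
  linarith

/-- The layer part of the supersolution. -/
noncomputable def Th (j r r' : ℕ) (a a' : ℝ) (m : ℕ) : ℝ :=
  a / Br (j + r) * Ps r m + a' / Br (j + r') * Ps r' m +
    Sc m / (Br j * Br (j + r) * Br (j + r'))

omit hP in
theorem Th_nonneg (j r r' : ℕ) (a a' : ℝ) (ha : 0 ≤ a) (ha' : 0 ≤ a') (m : ℕ) :
    0 ≤ Th j r r' a a' m := by
  unfold Th
  have h1 := Br_pos j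
  have h2 := Br_pos (j + r)
  have h3 := Br_pos (j + r')
  have h4 := Ps_nonneg r m
  have h5 := Ps_nonneg r' m
  have h6 := Sc_nonneg m
  positivity

omit hP in
theorem Th_rec (j r r' : ℕ) (a a' : ℝ) (m : ℕ) :
    (Th j r r' a a' (m + 1) + (if m = 0 then 0 else Th j r r' a a' (m - 1))) / 2 =
      Th j r r' a a' m - a / Br (j + r) * (if r = m + 1 ∨ m = r + 1 then 1 / 2 else 0)
      - a' / Br (j + r') * (if r' = m + 1 ∨ m = r' + 1 then 1 / 2 else 0)
      - 9 / 2 * (2 / 3) ^ m / (Br j * Br (j + r) * Br (j + r')) := by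
  have h1 := Ps_rec r m
  have h2 := Ps_rec r' m
  have h3 := Sc_rec m
  unfold Th
  rw [← h1, ← h2, ← h3]
  split_ifs <;> ring

open Classical in
/-- The second moments. -/
theorem mE_le (hK : StmK1) (hA : StmA1) (j r r' : ℕ) (z z' : VV) (hz : lay z = j + r)
    (hz' : lay z' = j + r') (a a' : ℝ)
    (ha : a = (if z = z' then 1 else 0) + Ps r' r / (Br (lay z) * Br (lay z')))
    (ha' : a' = Ps r r' / (Br (lay z) * Br (lay z'))) (n : ℕ) :
    ∀ (m : ℕ) (x : VV), lay x = j + m →
    mE P (AA j) n x z z' ≤ ENNReal.ofReal ((if x = z then a else 0) + (if x = z' then a' else 0) +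
      lf j (Th j r r' a a') (lay x)) := by
  have hbz := Br_pos (lay z)
  have hbz' := Br_pos (lay z')
  have ha0 : 0 ≤ a := by
    rw [ha]
    have := Ps_nonneg r' r
    positivity
  have ha0' : 0 ≤ a' := by
    rw [ha']
    have := Ps_nonneg r r'
    positivity
  have hTh := Th_nonneg j r r' a a' ha0 ha0'
  induction n with
  | zero =>
    intro m x hx
    rw [mE]
    exact zero_le
  | succ n ih =>
    intro m x hx
    have hbx := Br_pos (lay x)
    have hxA : x ∈ AA j := by
      show j ≤ lay x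
      omega
    rw [mE, if_pos hxA]
    -- first moments
    have g1 := gE_formula hP hK hA j r z hz n m x hx
    have g2 := gE_formula hP hK hA j r' z' hz' n m x hx
    have G1 : 2 * ∑' y, P x y * gE P (AA j) n y z ≤
        ENNReal.ofReal (Ps r m / (Br (lay x) * Br (lay z))) := by
      rw [g1]
      refine ENNReal.ofReal_le_ofReal ?_
      exact div_le_div_of_nonneg_right (Gc_le hA _ _ _) (by positivity)
    have G2 : 2 * ∑' y, P x y * gE P (AA j) n y z' ≤
        ENNReal.ofReal (Ps r' m / (Br (lay x) * Br (lay z'))) := by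
      rw [g2]
      refine ENNReal.ofReal_le_ofReal ?_
      exact div_le_div_of_nonneg_right (Gc_le hA _ _ _) (by positivity)
    -- the five terms
    have T1 : (if x = z ∧ x = z' then (1 : ℝ≥0∞) else 0) =
        ENNReal.ofReal (if x = z ∧ x = z' then 1 else 0) := by
      split_ifs <;> simp
    have T2 : (if x = z then 2 * ∑' y, P x y * gE P (AA j) n y z' else 0) ≤
        ENNReal.ofReal (if x = z then Ps r' r / (Br (lay z) * Br (lay z')) else 0) := by
      by_cases h : x = z
      · have hm : m = r := by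
          have := congrArg lay h
          omega
        rw [if_pos h, if_pos h]
        rw [hm, h] at G2
        rw [h]
        exact G2
      · rw [if_neg h, if_neg h]
        simp
    have T3 : (if x = z' then 2 * ∑' y, P x y * gE P (AA j) n y z else 0) ≤
        ENNReal.ofReal (if x = z' then Ps r r' / (Br (lay z) * Br (lay z')) else 0) := by
      by_cases h : x = z'
      · have hm : m = r' := by
          have := congrArg lay h
          omega
        rw [if_pos h, if_pos h]
        rw [hm, h, mul_comm (Br (lay z'))] at G1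
        rw [h]
        exact G1
      · rw [if_neg h, if_neg h]
        simp
    have T4 : 2 * (∑' y, P x y * mE P (AA j) n y z z') ≤ ENNReal.ofReal
        (2 * (pr (lay x) (lay z) * a + pr (lay x) (lay z') * a' +
        (Th j r r' a a' (m + 1) + (if m = 0 then 0 else Th j r r' a a' (m - 1))) /
          (4 * Br (lay x)))) := by
      rw [ENNReal.ofReal_mul (by norm_num), ← tsum_comb hP hK x z z' j m hx a a' ha0 ha0' _ hTh]
      have h2 : ENNReal.ofReal 2 = 2 := by norm_num
      rw [h2]
      refine mul_le_mul_right (ENNReal.tsum_le_tsum fun y => mul_le_mul_right ?_ _) _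
      by_cases hy : j ≤ lay y
      · exact ih (lay y - j) y (by omega)
      · cases n with
        | zero => rw [mE]; exact zero_le
        | succ n =>
          rw [mE, if_neg (show y ∉ AA j from hy)]
          exact zero_le
    have T5 : 2 * ((∑' y, P x y * gE P (AA j) n y z) * (∑' y, P x y * gE P (AA j) n y z')) ≤
        ENNReal.ofReal (1 / 2 * (Ps r m / (Br (lay x) * Br (lay z)) *
          (Ps r' m / (Br (lay x) * Br (lay z'))))) := by
      have h1 := Ps_nonneg r m
      have h2 := Ps_nonneg r' m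
      rw [ENNReal.ofReal_mul (by norm_num), ENNReal.ofReal_mul (by positivity)]
      have h3 : 2 * ((∑' y, P x y * gE P (AA j) n y z) * (∑' y, P x y * gE P (AA j) n y z')) =
          ENNReal.ofReal (1 / 2) * ((2 * ∑' y, P x y * gE P (AA j) n y z) *
            (2 * ∑' y, P x y * gE P (AA j) n y z')) := by
        have h4 : ENNReal.ofReal (1 / 2) * (2 * 2) = 2 := by
          have : (2 : ℝ≥0∞) = ENNReal.ofReal 2 := by norm_num
          rw [this, ← ENNReal.ofReal_mul (by norm_num), ← ENNReal.ofReal_mul (by norm_num)]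
          norm_num
        calc _ = (ENNReal.ofReal (1 / 2) * (2 * 2)) * ((∑' y, P x y * gE P (AA j) n y z) *
            (∑' y, P x y * gE P (AA j) n y z')) := by rw [h4]
          _ = _ := by ring
      rw [h3]
      exact mul_le_mul_right (mul_le_mul' G1 G2) _
    rw [T1]
    refine (add_le_add (add_le_add (add_le_add (add_le_add le_rfl T2) T3) T4) T5).trans ?_
    have n1 : (0 : ℝ) ≤ (if x = z ∧ x = z' then 1 else 0) := by positivity
    have n2 : (0 : ℝ) ≤ (if x = z then Ps r' r / (Br (lay z) * Br (lay z')) else 0) := by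
      have := Ps_nonneg r' r
      positivity
    have n3 : (0 : ℝ) ≤ (if x = z' then Ps r r' / (Br (lay z) * Br (lay z')) else 0) := by
      have := Ps_nonneg r r'
      positivity
    have n4 : (0 : ℝ) ≤ 2 * (pr (lay x) (lay z) * a + pr (lay x) (lay z') * a' +
        (Th j r r' a a' (m + 1) + (if m = 0 then 0 else Th j r r' a a' (m - 1))) /
          (4 * Br (lay x))) := by
      have h1 := pr_nonneg (lay x) (lay z)
      have h2 := pr_nonneg (lay x) (lay z')
      have h3 := hTh (m + 1)
      have h4 : 0 ≤ (if m = 0 then 0 else Th j r r' a a' (m - 1)) := by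
        split_ifs
        exacts [le_rfl, hTh _]
      positivity
    have n5 : (0 : ℝ) ≤ 1 / 2 * (Ps r m / (Br (lay x) * Br (lay z)) *
          (Ps r' m / (Br (lay x) * Br (lay z')))) := by
      have h1 := Ps_nonneg r m
      have h2 := Ps_nonneg r' m
      positivity
    rw [← ENNReal.ofReal_add n1 n2, ← ENNReal.ofReal_add (add_nonneg n1 n2) n3,
      ← ENNReal.ofReal_add (add_nonneg (add_nonneg n1 n2) n3) n4,
      ← ENNReal.ofReal_add (add_nonneg (add_nonneg (add_nonneg n1 n2) n3) n4) n5]
    refine ENNReal.ofReal_le_ofReal ?_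
    -- the real inequality
    have hpt : (if x = z ∧ x = z' then (1 : ℝ) else 0) +
        (if x = z then Ps r' r / (Br (lay z) * Br (lay z')) else 0) +
        (if x = z' then Ps r r' / (Br (lay z) * Br (lay z')) else 0) =
        (if x = z then a else 0) + (if x = z' then a' else 0) := by
      rw [ha, ha']
      by_cases h1 : x = z
      · by_cases h2 : x = z'
        · have h3 : z = z' := h1.symm.trans h2
          simp [h1, h3]
        · have h3 : ¬ (z = z') := fun h => h2 (h1.trans h)
          simp [h1, h3]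
      · simp [h1]
    have hlf : lf j (Th j r r' a a') (lay x) = Th j r r' a a' m / Br (lay x) := by
      unfold lf
      rw [if_pos (by omega)]
      congr 2
      omega
    rw [hpt, hlf]
    have hrec := Th_rec j r r' a a' m
    have hquad := quad_le j m r r'
    rw [hz, hz', hx] at *
    rw [pr_shift, pr_shift]
    have b0 := Br_pos j
    have b1 := Br_pos (j + m)
    have b2 := Br_pos (j + r)
    have b3 := Br_pos (j + r')
    have e1 : (Th j r r' a a' (m + 1) + (if m = 0 then 0 else Th j r r' a a' (m - 1))) /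
        (4 * Br (j + m)) = (Th j r r' a a' (m + 1) + (if m = 0 then 0 else
          Th j r r' a a' (m - 1))) / 2 / (2 * Br (j + m)) := by
      field_simp
      ring
    rw [e1, hrec]
    have e2 : 1 / 2 * (Ps r m / (Br (j + m) * Br (j + r)) * (Ps r' m / (Br (j + m) * Br (j + r')))) =
        (1 / 2 * (Ps r m * Ps r' m) / Br (j + m)) / (Br (j + m) * Br (j + r) * Br (j + r')) := by
      field_simp
    have e3 : (1 / 2 * (Ps r m * Ps r' m) / Br (j + m)) / (Br (j + m) * Br (j + r) * Br (j + r')) ≤
        (9 / 2 * (2 / 3) ^ m / Br j) / (Br (j + m) * Br (j + r) * Br (j + r')) :=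
      div_le_div_of_nonneg_right hquad (by positivity)
    have e4 : (9 / 2 * (2 / 3 : ℝ) ^ m / Br j) / (Br (j + m) * Br (j + r) * Br (j + r')) =
        9 / 2 * (2 / 3) ^ m / (Br j * Br (j + r) * Br (j + r')) / Br (j + m) := by
      field_simp
    rw [e2]
    refine (add_le_add le_rfl (e3.trans_eq e4)).trans (le_of_eq ?_)
    by_cases c1 : r = m + 1 ∨ m = r + 1
    · by_cases c2 : r' = m + 1 ∨ m = r' + 1
      · rw [if_pos c1, if_pos c1, if_pos c2, if_pos c2]
        field_simp
        ring
      · rw [if_pos c1, if_pos c1, if_neg c2, if_neg c2]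
        field_simp
        ring
    · by_cases c2 : r' = m + 1 ∨ m = r' + 1
      · rw [if_neg c1, if_neg c1, if_pos c2, if_pos c2]
        field_simp
        ring
      · rw [if_neg c1, if_neg c1, if_neg c2, if_neg c2]
        field_simp
        ring

end

theorem div_ofReal (a : ℝ) (ha : 0 ≤ a) (c : ℝ≥0∞) (b : ℝ) (hb : 0 < b) (hc : c = ENNReal.ofReal b) :
    ENNReal.ofReal a / c = ENNReal.ofReal (a / b) := by
  rw [hc, ENNReal.ofReal_div_of_pos hb]

theorem succ_div_le (j r : ℕ) : ((r : ℝ) + 1) / Br (j + r) ≤ 1 / Br j := by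
  have h1 := Br_pos j
  have h2 := Br_pos (j + r)
  rw [div_le_div_iff₀ h2 h1]
  have h3 : (r + 1) ≤ 3 ^ r := by
    induction r with
    | zero => simp
    | succ r ih =>
      rw [pow_succ]
      have := ih (Br_pos _)
      omega
  have h4 := be_grow' j r
  have h5 : (r + 1) * be j ≤ be (j + r) := le_trans (Nat.mul_le_mul_right _ h3) h4
  unfold Br
  rw [one_mul]
  exact_mod_cast h5

open Classical in
theorem tA2 (hK : StmK1) (hA : StmA1) : StmA2 := by
  intro P hP j x hx
  constructor
  · intro n z z' hz hz'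
    obtain ⟨r, hr⟩ : ∃ r, lay z = j + (r + 1) := ⟨lay z - j - 1, by omega⟩
    obtain ⟨r', hr'⟩ : ∃ r, lay z' = j + (r + 1) := ⟨lay z' - j - 1, by omega⟩
    have h1 := mE_le hP hK hA j (r + 1) (r' + 1) z z' hr hr' _ _ rfl rfl n 0 x (by omega)
    refine h1.trans ?_
    have hxz : x ≠ z := by
      rintro rfl
      omega
    have hxz' : x ≠ z' := by
      rintro rfl
      omega
    rw [if_neg hxz, if_neg hxz', zero_add, zero_add]
    have b0 := Br_pos j
    have b1 := Br_pos (j + (r + 1))
    have b2 := Br_pos (j + (r' + 1))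
    have hR : (if z = z' then 2 / ((be j : ℝ≥0∞) * be (lay z)) else 0) +
        35 / ((be j : ℝ≥0∞) ^ 2 * be (lay z) * be (lay z')) =
        ENNReal.ofReal ((if z = z' then 2 / (Br j * Br (j + (r + 1))) else 0) +
          35 / (Br j ^ 2 * Br (j + (r + 1)) * Br (j + (r' + 1)))) := by
      rw [ENNReal.ofReal_add (by positivity) (by positivity)]
      congr 1
      · by_cases h : z = z'
        · rw [if_pos h, if_pos h, ← div_ofReal 2 (by norm_num) ((be j : ℝ≥0∞) * be (lay z)) _
            (by positivity) (by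
              rw [hr, be_ofReal, be_ofReal, ← ENNReal.ofReal_mul b0.le])]
          norm_num
        · rw [if_neg h, if_neg h]
          simp
      · rw [← div_ofReal 35 (by norm_num) ((be j : ℝ≥0∞) ^ 2 * be (lay z) * be (lay z')) _
            (by positivity) (by
              rw [hr, hr', be_ofReal, be_ofReal, be_ofReal, ← ENNReal.ofReal_pow b0.le,
                ← ENNReal.ofReal_mul (by positivity), ← ENNReal.ofReal_mul (by positivity)])]
        norm_num
    rw [hR]
    refine ENNReal.ofReal_le_ofReal ?_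
    have hlf : ∀ Θ : ℕ → ℝ, lf j Θ (lay x) = Θ 0 / Br j := by
      intro Θ
      unfold lf
      rw [if_pos (by omega), hx]
      simp
    rw [hlf]
    have hP1 : ∀ t : ℕ, Ps (t + 1) 0 = 2 := by
      intro t
      unfold Ps
      rw [if_neg (by omega), Nat.zero_min]
      norm_num
    have hS0 : Sc 0 = 27 := by
      unfold Sc
      norm_num
    unfold Th
    rw [hP1, hP1, hS0, hr, hr']
    have q1 := (Ps_le (r' + 1) (r + 1)).1
    have q2 := (Ps_le (r + 1) (r' + 1)).1
    have s1 := succ_div_le j (r + 1)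
    have s2 := succ_div_le j (r' + 1)
    have p1 := Ps_nonneg (r' + 1) (r + 1)
    have p2 := Ps_nonneg (r + 1) (r' + 1)
    set Bk := Br (j + (r + 1)) with hBk
    set Bl := Br (j + (r' + 1)) with hBl
    set Bj := Br j with hBj
    -- first piece
    have k1 : Ps (r' + 1) (r + 1) / (Bk * Bl) / Bk * 2 ≤ 4 / (Bj * Bk * Bl) := by
      have h2 : Ps (r' + 1) (r + 1) / (Bk * Bl) / Bk * 2 ≤
          (2 * (((r + 1 : ℕ) : ℝ) + 1)) / (Bk * Bl) / Bk * 2 := by gcongr
      have h3 : (2 * (((r + 1 : ℕ) : ℝ) + 1)) / (Bk * Bl) / Bk * 2 =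
          4 * ((((r + 1 : ℕ) : ℝ) + 1) / Bk) / (Bk * Bl) := by
        field_simp
        ring
      have h4 : 4 * ((((r + 1 : ℕ) : ℝ) + 1) / Bk) / (Bk * Bl) ≤ 4 * (1 / Bj) / (Bk * Bl) := by
        gcongr
      have h5 : 4 * (1 / Bj) / (Bk * Bl) = 4 / (Bj * Bk * Bl) := by
        field_simp
      linarith
    have k2 : Ps (r + 1) (r' + 1) / (Bk * Bl) / Bl * 2 ≤ 4 / (Bj * Bk * Bl) := by
      have h2 : Ps (r + 1) (r' + 1) / (Bk * Bl) / Bl * 2 ≤
          (2 * (((r' + 1 : ℕ) : ℝ) + 1)) / (Bk * Bl) / Bl * 2 := by gcongr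
      have h3 : (2 * (((r' + 1 : ℕ) : ℝ) + 1)) / (Bk * Bl) / Bl * 2 =
          4 * ((((r' + 1 : ℕ) : ℝ) + 1) / Bl) / (Bk * Bl) := by
        field_simp
        ring
      have h4 : 4 * ((((r' + 1 : ℕ) : ℝ) + 1) / Bl) / (Bk * Bl) ≤ 4 * (1 / Bj) / (Bk * Bl) := by
        gcongr
      have h5 : 4 * (1 / Bj) / (Bk * Bl) = 4 / (Bj * Bk * Bl) := by
        field_simp
      linarith
    have hsum : ((if z = z' then 1 else 0) + Ps (r' + 1) (r + 1) / (Bk * Bl)) / Bk * 2 +
        Ps (r + 1) (r' + 1) / (Bk * Bl) / Bl * 2 + 27 / (Bj * Bk * Bl) ≤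
        (if z = z' then 1 else 0) / Bk * 2 + 35 / (Bj * Bk * Bl) := by
      have e1 : ((if z = z' then 1 else 0) + Ps (r' + 1) (r + 1) / (Bk * Bl)) / Bk * 2 =
          (if z = z' then 1 else 0) / Bk * 2 + Ps (r' + 1) (r + 1) / (Bk * Bl) / Bk * 2 := by
        ring
      have e2 : (35 : ℝ) / (Bj * Bk * Bl) = 4 / (Bj * Bk * Bl) + 4 / (Bj * Bk * Bl) +
          27 / (Bj * Bk * Bl) := by ring
      rw [e1, e2]
      linarith
    refine (div_le_div_of_nonneg_right hsum b0.le).trans (le_of_eq ?_)
    by_cases h : z = z'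
    · rw [if_pos h, if_pos h]
      field_simp
    · rw [if_neg h, if_neg h]
      field_simp
      ring
  · intro z hz
    obtain ⟨r, hr⟩ : ∃ r, lay z = j + (r + 1) := ⟨lay z - j - 1, by omega⟩
    rw [← tendsto_add_atTop_iff_nat 1]
    have b0 := Br_pos j
    have b1 := Br_pos (j + (r + 1))
    have hxz : x ≠ z := by
      rintro rfl
      omega
    have hxA : x ∈ AA j := by
      show j ≤ lay x
      omega
    have h1 : ∀ n, gE P (AA j) (n + 1) x z =
        ENNReal.ofReal (Gam (n + 1) 0 (r + 1) / (Br j * Br (j + (r + 1)))) := by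
      intro n
      rw [gE, if_pos hxA, if_neg hxz, zero_add,
        gE_formula hP hK hA j (r + 1) z hr n 0 x (by omega), hx, hr]
      congr 2
      unfold Gc
      rw [if_neg (by omega)]
      ring
    simp only [h1]
    have h2 := hA.2 0 (r + 1)
    have h3 : Tendsto (fun n => Gam (n + 1) 0 (r + 1) / (Br j * Br (j + (r + 1)))) atTop
        (𝓝 (2 / (Br j * Br (j + (r + 1))))) := by
      have h4 := ((tendsto_add_atTop_iff_nat 1).2 h2).div_const (Br j * Br (j + (r + 1)))
      simpa using h4
    have h5 := ENNReal.tendsto_ofReal h3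
    have h6 : (2 / ((be j : ℝ≥0∞) * be (lay z))) =
        ENNReal.ofReal (2 / (Br j * Br (j + (r + 1)))) := by
      rw [← div_ofReal 2 (by norm_num) ((be j : ℝ≥0∞) * be (lay z)) _
            (by positivity) (by
              rw [hr, be_ofReal, be_ofReal, ← ENNReal.ofReal_mul b0.le])]
      norm_num
    rw [h6]
    exact h5

end Pool.Agent.R638.BRW
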