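import Pool.Agent.R638.BRW.A2

/-! Piece C: uniform lower bound for the probability of a meeting. -/

open MeasureTheory ProbabilityTheory Set Filter Topology
open scoped ENNReal NNReal

namespace Pool.Agent.R638.BRW

instance : Countable VV := inferInstanceAs (Countable (Σ k : ℕ, Fin (be k ^ 2)))

instance : DiscreteMeasurableSpace VV := ⟨fun _ => trivial⟩

section Meas

variable {V : Type} [Countable V] [MeasurableSpace V] [DiscreteMeasurableSpace V]

theorem measurableSet_rpos (u : List ℕ) (x : V) (r : List ℕ) (z : V) :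
    MeasurableSet {s : List ℕ × V → V | rpos s u x r = z} := by
  induction r generalizing z with
  | nil =>
    have : {s : List ℕ × V → V | rpos s u x [] = z} = {s | x = z} := rfl
    rw [this]
    exact MeasurableSet.const _
  | cons k r ih =>
    have : {s : List ℕ × V → V | rpos s u x (k :: r) = z} =
        ⋃ y : V, ({s | rpos s u x r = y} ∩ {s | s (k :: (r ++ u), y) = z}) := by
      ext s
      simp [rpos]
    rw [this]
    refine MeasurableSet.iUnion fun y => (ih y).inter ?_
    exact (measurable_pi_apply (X := fun _ : List ℕ × V => V) (k :: (r ++ u), y))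
      (MeasurableSet.singleton z)

theorem measurableSet_disj (u v : List ℕ) (x y : V) :
    MeasurableSet {s : List ℕ × V → V | Disjoint (Vis s u x) (Vis s v y)} := by
  have h : {s : List ℕ × V → V | Disjoint (Vis s u x) (Vis s v y)} =
      (⋃ (r : List ℕ) (r' : List ℕ) (z : V), {s : List ℕ × V → V |
        (Bin r ∧ Bin r') ∧ rpos s u x r = z ∧ rpos s v y r' = z})ᶜ := by
    ext s
    simp only [mem_compl_iff, mem_iUnion, not_exists]
    constructor
    · rintro hd r r' z ⟨⟨h1, h2⟩, h3, h4⟩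
      exact (Set.disjoint_left.1 hd) ⟨r, h1, h3⟩ ⟨r', h2, h4⟩
    · intro hn
      refine Set.disjoint_left.2 ?_
      rintro z ⟨r, h1, h3⟩ ⟨r', h2, h4⟩
      exact hn r r' z ⟨⟨h1, h2⟩, h3, h4⟩
  rw [h]
  refine (MeasurableSet.iUnion fun r => MeasurableSet.iUnion fun r' =>
    MeasurableSet.iUnion fun z => ?_).compl
  exact (MeasurableSet.const _).inter ((measurableSet_rpos u x r z).inter
    (measurableSet_rpos v y r' z))

end Meas

/-- Inverse of `be`. -/
noncomputable def ci (k : ℕ) : ℝ≥0∞ := (be k : ℝ≥0∞)⁻¹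

theorem be_ne_zero (k : ℕ) : (be k : ℝ≥0∞) ≠ 0 := by
  have := be_pos k
  exact_mod_cast (by omega : be k ≠ 0)

theorem be_mul_ci (k : ℕ) : (be k : ℝ≥0∞) * ci k = 1 :=
  ENNReal.mul_inv_cancel (be_ne_zero k) (ENNReal.natCast_ne_top _)

theorem ci_le_one (k : ℕ) : ci k ≤ 1 := by
  unfold ci
  rw [ENNReal.inv_le_one]
  exact_mod_cast be_pos k

theorem ci_ne_top (k : ℕ) : ci k ≠ ⊤ := ne_top_of_le_ne_top ENNReal.one_ne_top (ci_le_one k)

theorem sum_layers (k0 M : ℕ) : ∑ z ∈ layers k0 M, ci (lay z) ^ 2 = M := by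
  have h1 : ∀ k ∈ Finset.Ioc k0 (k0 + M),
      ∑ _i : Fin (be k ^ 2), ci k ^ 2 = 1 := by
    intro k _
    simp only [Finset.sum_const, Finset.card_univ, Fintype.card_fin, nsmul_eq_mul]
    push_cast
    rw [← mul_pow, be_mul_ci, one_pow]
  have h2 : ∑ z ∈ layers k0 M, ci (lay z) ^ 2 =
      ∑ k ∈ Finset.Ioc k0 (k0 + M), ∑ _i : Fin (be k ^ 2), ci k ^ 2 :=
    Finset.sum_sigma (Finset.Ioc k0 (k0 + M)) (fun k => (Finset.univ : Finset (Fin (be k ^ 2))))
      (fun z => ci z.1 ^ 2)
  rw [h2, Finset.sum_congr rfl h1]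
  simp

theorem mem_layers {k0 M : ℕ} {z : VV} (h : z ∈ layers k0 M) : k0 < lay z := by
  have h1 := Finset.mem_sigma.1 h
  exact (Finset.mem_Ioc.1 h1.1).1

open Classical in
theorem tC (hPc : StmP) (hA : StmA2) : StmC := by
  intro P hP u v x y huv hne
  set i := lay x with hi
  set j := lay y with hj
  set F := layers (max i j) (be i * be j) with hF
  set p := stepMeasure P {s | ¬ Disjoint (Vis s u x) (Vis s v y)} with hp
  obtain ⟨hx1, hx2⟩ := hA P hP i x rfl
  obtain ⟨hy1, hy2⟩ := hA P hP j y rfl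
  have hFi : ∀ z ∈ F, i < lay z := fun z hz => lt_of_le_of_lt (le_max_left i j) (mem_layers hz)
  have hFj : ∀ z ∈ F, j < lay z := fun z hz => lt_of_le_of_lt (le_max_right i j) (mem_layers hz)
  have hS : ∑ z ∈ F, ci (lay z) ^ 2 = (be i : ℝ≥0∞) * be j := by
    rw [hF, sum_layers]
    push_cast
    rfl
  have hone : (be i : ℝ≥0∞) * be j * (ci i * ci j) = 1 := by
    calc _ = ((be i : ℝ≥0∞) * ci i) * ((be j : ℝ≥0∞) * ci j) := by ring
      _ = 1 := by rw [be_mul_ci, be_mul_ci, one_mul]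
  -- rewriting of the bounds
  have hdiv : ∀ (c : ℝ≥0∞) (a b : ℕ), c / ((be a : ℝ≥0∞) * be b) = c * (ci a * ci b) := by
    intro c a b
    unfold ci
    rw [div_eq_mul_inv, ENNReal.mul_inv (Or.inl (be_ne_zero _)) (Or.inl (ENNReal.natCast_ne_top _))]
  have hdiv3 : ∀ (c : ℝ≥0∞) (a b d : ℕ), c / ((be a : ℝ≥0∞) ^ 2 * be b * be d) =
      c * (ci a ^ 2 * ci b * ci d) := by
    intro c a b d
    unfold ci
    rw [div_eq_mul_inv, ENNReal.mul_inv (Or.inl (mul_ne_zero (pow_ne_zero _ (be_ne_zero _))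
      (be_ne_zero _))) (Or.inl (ENNReal.mul_ne_top (ENNReal.pow_ne_top (ENNReal.natCast_ne_top _))
      (ENNReal.natCast_ne_top _))), ENNReal.mul_inv (Or.inl (pow_ne_zero _ (be_ne_zero _)))
      (Or.inl (ENNReal.pow_ne_top (ENNReal.natCast_ne_top _))), ENNReal.inv_pow]
  -- second moments
  have hsec : ∀ n, ∑ z ∈ F, ∑ z' ∈ F, mE P (AA i) n x z z' * mE P (AA j) n y z z' ≤ 1369 := by
    intro n
    have h1 : ∀ z ∈ F, ∀ z' ∈ F, mE P (AA i) n x z z' * mE P (AA j) n y z z' ≤
        (if z = z' then 144 * (ci i * ci j * ci (lay z) ^ 2) else 0) +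
          1225 * (ci i * ci j) ^ 2 * (ci (lay z) ^ 2 * ci (lay z') ^ 2) := by
      intro z hz z' hz'
      have e1 := hx1 n z z' (hFi z hz) (hFi z' hz')
      have e2 := hy1 n z z' (hFj z hz) (hFj z' hz')
      rw [hdiv, hdiv3] at e1 e2
      refine (mul_le_mul' e1 e2).trans ?_
      by_cases h : z = z'
      · subst h
        rw [if_pos rfl, if_pos rfl, if_pos rfl]
        have f1 : ci i * (ci i * ci j * ci (lay z) ^ 2 * ci (lay z)) ≤
            ci i * ci j * ci (lay z) ^ 2 := by
          calc _ ≤ 1 * (ci i * ci j * ci (lay z) ^ 2 * 1) := by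
                gcongr
                · exact ci_le_one _
                · exact ci_le_one _
            _ = _ := by ring
        have f2 : ci j * (ci i * ci j * ci (lay z) ^ 2 * ci (lay z)) ≤
            ci i * ci j * ci (lay z) ^ 2 := by
          calc _ ≤ 1 * (ci i * ci j * ci (lay z) ^ 2 * 1) := by
                gcongr
                · exact ci_le_one _
                · exact ci_le_one _
            _ = _ := by ring
        calc (2 * (ci i * ci (lay z)) + 35 * (ci i ^ 2 * ci (lay z) * ci (lay z))) *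
            (2 * (ci j * ci (lay z)) + 35 * (ci j ^ 2 * ci (lay z) * ci (lay z)))
            = 4 * (ci i * ci j * ci (lay z) ^ 2) +
              70 * (ci j * (ci i * ci j * ci (lay z) ^ 2 * ci (lay z))) +
              70 * (ci i * (ci i * ci j * ci (lay z) ^ 2 * ci (lay z))) +
              1225 * (ci i * ci j) ^ 2 * (ci (lay z) ^ 2 * ci (lay z) ^ 2) := by ring
          _ ≤ 4 * (ci i * ci j * ci (lay z) ^ 2) + 70 * (ci i * ci j * ci (lay z) ^ 2) +
              70 * (ci i * ci j * ci (lay z) ^ 2) +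
              1225 * (ci i * ci j) ^ 2 * (ci (lay z) ^ 2 * ci (lay z) ^ 2) := by gcongr
          _ = _ := by ring
      · rw [if_neg h, if_neg h, if_neg h]
        refine le_of_eq ?_
        ring
    calc ∑ z ∈ F, ∑ z' ∈ F, mE P (AA i) n x z z' * mE P (AA j) n y z z'
        ≤ ∑ z ∈ F, ∑ z' ∈ F, ((if z = z' then 144 * (ci i * ci j * ci (lay z) ^ 2) else 0) +
          1225 * (ci i * ci j) ^ 2 * (ci (lay z) ^ 2 * ci (lay z') ^ 2)) :=
          Finset.sum_le_sum fun z hz => Finset.sum_le_sum fun z' hz' => h1 z hz z' hz'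
      _ = ∑ z ∈ F, (144 * (ci i * ci j * ci (lay z) ^ 2) +
          1225 * (ci i * ci j) ^ 2 * (ci (lay z) ^ 2 * ∑ z' ∈ F, ci (lay z') ^ 2)) := by
          refine Finset.sum_congr rfl fun z hz => ?_
          rw [Finset.sum_add_distrib, Finset.sum_ite_eq, if_pos hz, ← Finset.mul_sum,
            ← Finset.mul_sum]
      _ = 144 * (ci i * ci j * ∑ z ∈ F, ci (lay z) ^ 2) +
          1225 * (ci i * ci j) ^ 2 * ((∑ z ∈ F, ci (lay z) ^ 2) * ∑ z' ∈ F, ci (lay z') ^ 2) := by
          rw [Finset.sum_add_distrib, ← Finset.mul_sum, ← Finset.mul_sum, ← Finset.mul_sum,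
            ← Finset.sum_mul]
      _ = 144 * ((be i : ℝ≥0∞) * be j * (ci i * ci j)) +
          1225 * ((be i : ℝ≥0∞) * be j * (ci i * ci j)) ^ 2 := by
          rw [hS]
          ring
      _ = 1369 := by
          rw [hone]
          norm_num
  -- first moments
  have hfirst : Tendsto (fun n => (∑ z ∈ F, gE P (AA i) n x z * gE P (AA j) n y z) ^ 2) atTop
      (𝓝 (4 ^ 2)) := by
    refine ENNReal.Tendsto.pow ?_
    have h1 : Tendsto (fun n => ∑ z ∈ F, gE P (AA i) n x z * gE P (AA j) n y z) atTop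
        (𝓝 (∑ z ∈ F, (2 * (ci i * ci (lay z))) * (2 * (ci j * ci (lay z))))) := by
      refine tendsto_finsetSum _ fun z hz => ?_
      have g1 := hx2 z (hFi z hz)
      have g2 := hy2 z (hFj z hz)
      rw [hdiv] at g1 g2
      refine ENNReal.Tendsto.mul g1 (Or.inr ?_) g2 (Or.inr ?_)
      · exact ENNReal.mul_ne_top (by norm_num) (ENNReal.mul_ne_top (ci_ne_top _) (ci_ne_top _))
      · exact ENNReal.mul_ne_top (by norm_num) (ENNReal.mul_ne_top (ci_ne_top _) (ci_ne_top _))
    have h2 : ∑ z ∈ F, (2 * (ci i * ci (lay z))) * (2 * (ci j * ci (lay z))) = 4 := by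
      calc _ = ∑ z ∈ F, 4 * (ci i * ci j) * ci (lay z) ^ 2 :=
            Finset.sum_congr rfl fun z _ => by ring
        _ = 4 * ((be i : ℝ≥0∞) * be j * (ci i * ci j)) := by
            rw [← Finset.mul_sum, hS]
            ring
        _ = 4 := by rw [hone, mul_one]
    rw [h2] at h1
    exact h1
  have hkey : (4 : ℝ≥0∞) ^ 2 ≤ p * 1369 := by
    refine le_of_tendsto' hfirst fun n => ?_
    exact (hPc VV P (AA i) (AA j) F n u v huv hne x y).trans (mul_le_mul_right (hsec n) _)
  have hp16 : 16 / 1369 ≤ p := by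
    refine ENNReal.div_le_of_le_mul ?_
    calc (16 : ℝ≥0∞) = 4 ^ 2 := by norm_num
      _ ≤ _ := hkey
  have hprob : IsProbabilityMeasure (stepMeasure P) := by
    unfold stepMeasure
    infer_instance
  have hcompl : stepMeasure P {s | Disjoint (Vis s u x) (Vis s v y)} = 1 - p := by
    have h1 : {s : List ℕ × VV → VV | Disjoint (Vis s u x) (Vis s v y)} =
        {s | ¬ Disjoint (Vis s u x) (Vis s v y)}ᶜ := by
      ext s
      simp
    have h2 : MeasurableSet {s : List ℕ × VV → VV | ¬ Disjoint (Vis s u x) (Vis s v y)} :=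
      (measurableSet_disj u v x y).compl
    rw [h1, prob_compl_eq_one_sub h2]
  rw [hcompl]
  exact tsub_le_tsub_left hp16 1

end Pool.Agent.R638.BRW
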