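import Pool.Agent.R638.BRW.Stm

/-! Piece D: if the descendants of any two different particles of the same generation meet, and
every vertex is visited finitely often, then the trace has one end. -/

open Set

namespace Pool.Agent.R638.BRW

namespace D

variable {V : Type}

lemma bin_cons {k : ℕ} {u : List ℕ} : Bin (k :: u) ↔ k < 2 ∧ Bin u := by
  simp [Bin]

lemma bin_append {u v : List ℕ} : Bin (u ++ v) ↔ Bin u ∧ Bin v := by
  simp only [Bin, List.mem_append]
  constructor
  · intro h
    exact ⟨fun k hk => h k (Or.inl hk), fun k hk => h k (Or.inr hk)⟩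
  · rintro ⟨h1, h2⟩ k (hk | hk)
    · exact h1 k hk
    · exact h2 k hk

lemma alive_iff (N : List ℕ → ℕ) (hN : ∀ u, N u = 2) (u : List ℕ) : alive N u ↔ Bin u := by
  induction u with
  | nil => simp [alive, Bin]
  | cons k u ih =>
    rw [bin_cons, alive, ih, hN, and_comm]

lemma rpos_pos (s : List ℕ × V → V) (x : V) (u r : List ℕ) :
    rpos s u (pos s x u) r = pos s x (r ++ u) := by
  induction r with
  | nil => rfl
  | cons k r ih =>
    simp only [rpos, List.cons_append, pos]
    rw [ih]

lemma conn (N : List ℕ → ℕ) (s : List ℕ × V → V) (x : V) (hN : ∀ u, N u = 2)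
    (hmeet : ∀ (u v : List ℕ) (y y' : V), u.length = v.length → u ≠ v →
      ¬ Disjoint (Vis s u y) (Vis s v y')) (K : Finset V) (n : ℕ)
    (hn : ∀ w, Bin w → n ≤ w.length → pos s x w ∈ ((K : Set V)ᶜ)) (w w' : List ℕ) (hw : Bin w)
    (hw' : Bin w') (hl : n ≤ w.length) (hl' : n ≤ w'.length) :
    ((trace N s x).induce ((K : Set V)ᶜ)).Reachable ⟨pos s x w, hn w hw hl⟩
      ⟨pos s x w', hn w' hw' hl'⟩ := by
  have down : ∀ (u : List ℕ) (hu : Bin u) (hlu : n ≤ u.length) (r : List ℕ)
      (h1 : pos s x (r ++ u) ∈ ((K : Set V)ᶜ)), Bin (r ++ u) →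
      ((trace N s x).induce ((K : Set V)ᶜ)).Reachable ⟨pos s x (r ++ u), h1⟩
      ⟨pos s x u, hn u hu hlu⟩ := by
    intro u hu hlu r
    induction r with
    | nil =>
      intro h1 _
      exact SimpleGraph.Reachable.refl _
    | cons k r ih =>
      intro h1 hb
      have hb' : Bin (r ++ u) := (bin_cons.mp hb).2
      have hlen : n ≤ (r ++ u).length := by
        rw [List.length_append]
        omega
      have h2 := ih (hn _ hb' hlen) hb'
      refine SimpleGraph.Reachable.trans ?_ h2
      by_cases h : pos s x (r ++ u) = pos s x (k :: (r ++ u))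
      · have : (⟨pos s x (k :: r ++ u), h1⟩ : ((K : Set V)ᶜ : Set V)) =
            ⟨pos s x (r ++ u), hn _ hb' hlen⟩ := Subtype.ext h.symm
        rw [this]
      · apply SimpleGraph.Adj.reachable
        change (trace N s x).Adj (pos s x (k :: r ++ u)) (pos s x (r ++ u))
        refine ⟨fun h3 => h h3.symm, r ++ u, k, (alive_iff N hN _).mpr hb, Or.inr ⟨rfl, rfl⟩⟩
  have split : ∀ (w : List ℕ) (hw : Bin w) (hl : n ≤ w.length), ∃ (u : List ℕ) (hu : Bin u)
      (hlu : u.length = n), ((trace N s x).induce ((K : Set V)ᶜ)).Reachable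
        ⟨pos s x w, hn w hw hl⟩ ⟨pos s x u, hn u hu hlu.ge⟩ := by
    intro w hw hl
    have h1 : w.take (w.length - n) ++ w.drop (w.length - n) = w := List.take_append_drop _ _
    have h2 : (w.drop (w.length - n)).length = n := by
      rw [List.length_drop]
      omega
    have h3 : Bin (w.drop (w.length - n)) := fun k hk => hw k (List.mem_of_mem_drop hk)
    refine ⟨w.drop (w.length - n), h3, h2, ?_⟩
    have h4 := down (w.drop (w.length - n)) h3 h2.ge (w.take (w.length - n))
      (by rw [h1]; exact hn w hw hl) (by rw [h1]; exact hw)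
    have h5 : (⟨pos s x (w.take (w.length - n) ++ w.drop (w.length - n)), by
        rw [h1]; exact hn w hw hl⟩ : ((K : Set V)ᶜ : Set V)) = ⟨pos s x w, hn w hw hl⟩ :=
      Subtype.ext (congrArg (pos s x) h1)
    rw [h5] at h4
    exact h4
  obtain ⟨u, hu, hlu, h1⟩ := split w hw hl
  obtain ⟨v, hv, hlv, h2⟩ := split w' hw' hl'
  refine (h1.trans ?_).trans h2.symm
  by_cases huv : u = v
  · subst huv
    exact SimpleGraph.Reachable.refl _
  have h3 := hmeet u v (pos s x u) (pos s x v) (hlu.trans hlv.symm) huv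
  rw [Set.not_disjoint_iff] at h3
  obtain ⟨z, ⟨r, hr, hz⟩, ⟨r', hr', hz'⟩⟩ := h3
  rw [rpos_pos] at hz hz'
  have hb : Bin (r ++ u) := bin_append.mpr ⟨hr, hu⟩
  have hb' : Bin (r' ++ v) := bin_append.mpr ⟨hr', hv⟩
  have hlr : n ≤ (r ++ u).length := by
    rw [List.length_append]
    omega
  have hlr' : n ≤ (r' ++ v).length := by
    rw [List.length_append]
    omega
  have h4 := down u hu hlu.ge r (hn _ hb hlr) hb
  have h5 := down v hv hlv.ge r' (hn _ hb' hlr') hb'
  have h6 : (⟨pos s x (r ++ u), hn _ hb hlr⟩ : ((K : Set V)ᶜ : Set V)) =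
      ⟨pos s x (r' ++ v), hn _ hb' hlr'⟩ := Subtype.ext (hz.trans hz'.symm)
  rw [h6] at h4
  exact h4.symm.trans h5

lemma finite_short (n : ℕ) : {w : List ℕ | Bin w ∧ w.length < n}.Finite := by
  have h1 : ∀ m, {w : List ℕ | Bin w ∧ w.length = m}.Finite := by
    intro m
    refine ((List.finite_length_eq (Fin 2) m).image (List.map Fin.val)).subset ?_
    rintro l ⟨h1, h2⟩
    refine ⟨l.pmap (fun v hv => (⟨v, hv⟩ : Fin 2)) h1, ?_, ?_⟩
    · simp [h2]
    · rw [List.map_pmap]
      simp
  have h2 : {w : List ℕ | Bin w ∧ w.length < n} =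
      ⋃ m ∈ Finset.range n, {w : List ℕ | Bin w ∧ w.length = m} := by
    ext w
    simp
  rw [h2]
  exact Set.Finite.biUnion (Finset.range n).finite_toSet fun m _ => h1 m

lemma visited_infinite (s : List ℕ × V → V) (x : V)
    (hfin : ∀ z, {u : List ℕ | Bin u ∧ pos s x u = z}.Finite) :
    {z | ∃ w, Bin w ∧ pos s x w = z}.Infinite := by
  intro hf
  have h1 : {w : List ℕ | Bin w} = ⋃ z ∈ {z | ∃ w, Bin w ∧ pos s x w = z},
      {u : List ℕ | Bin u ∧ pos s x u = z} := by
    ext w
    simp only [mem_ofPred_eq, mem_iUnion, exists_prop]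
    constructor
    · intro h
      exact ⟨_, ⟨w, h, rfl⟩, h, rfl⟩
    · rintro ⟨z, _, h, _⟩
      exact h
  have h2 : {w : List ℕ | Bin w}.Finite := by
    rw [h1]
    exact Set.Finite.biUnion hf fun z _ => hfin z
  have h3 : (Set.range fun n : ℕ => List.replicate n 0) ⊆ {w : List ℕ | Bin w} := by
    rintro _ ⟨n, rfl⟩ k hk
    rw [List.eq_of_mem_replicate hk]
    norm_num
  refine Set.infinite_range_of_injective ?_ (h2.subset h3)
  intro a b hab
  have := congrArg List.length hab
  simpa using this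

end D

open D

theorem tD : StmD := by
  intro V N s x hN hfin hmeet
  classical
  have key : ∀ K : Finset V, ∃ n, ∀ w, Bin w → n ≤ w.length → pos s x w ∈ ((K : Set V)ᶜ) := by
    intro K
    have hf : {w | Bin w ∧ pos s x w ∈ K}.Finite := by
      have h1 : {w | Bin w ∧ pos s x w ∈ K} = ⋃ z ∈ K, {w | Bin w ∧ pos s x w = z} := by
        ext w
        simp only [mem_ofPred_eq, mem_iUnion, exists_prop]
        constructor
        · rintro ⟨h1, h2⟩
          exact ⟨_, h2, h1, rfl⟩
        · rintro ⟨z, h2, h1, rfl⟩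
          exact ⟨h1, h2⟩
      rw [h1]
      exact Set.Finite.biUnion K.finite_toSet fun z _ => hfin z
    obtain ⟨n, hn⟩ := (hf.image List.length).bddAbove
    refine ⟨n + 1, fun w hb hl hK => ?_⟩
    have := hn ⟨w, ⟨hb, Finset.mem_coe.mp hK⟩, rfl⟩
    omega
  have hvis : ∀ a b, (trace N s x).Adj a b → ∃ w, Bin w ∧ pos s x w = a := by
    rintro a b ⟨_, u, k, h1, h2⟩
    have h3 := (alive_iff N hN _).mp h1
    rcases h2 with ⟨h2, _⟩ | ⟨_, h2⟩
    · exact ⟨u, (bin_cons.mp h3).2, h2⟩
    · exact ⟨k :: u, h3, h2⟩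
  apply le_antisymm
  · apply iSup_le
    intro K
    obtain ⟨n, hn⟩ := key K
    have h0 : Bin (List.replicate n 0) := by
      intro k hk
      rw [List.eq_of_mem_replicate hk]
      norm_num
    have h0l : n ≤ (List.replicate n 0).length := by simp
    rw [Set.encard_le_one_iff]
    suffices hs : ∀ c : ((trace N s x).induce ((K : Set V)ᶜ)).ConnectedComponent,
        c.supp.Infinite → c = SimpleGraph.connectedComponentMk _
          ⟨pos s x (List.replicate n 0), hn _ h0 h0l⟩ by
      intro a b ha hb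
      rw [hs a ha, hs b hb]
    intro c hc
    -- all vertices of an infinite component are visited
    have h1 : ∀ v ∈ c.supp, ∃ w, Bin w ∧ pos s x w = (v : V) := by
      intro v hv
      have h2 : ∃ v' ∈ c.supp, v' ≠ v := by
        by_contra hcon
        push Not at hcon
        exact hc ((Set.finite_singleton v).subset fun v' hv' => hcon v' hv')
      obtain ⟨v', hv', hne⟩ := h2
      have h3 : ((trace N s x).induce ((K : Set V)ᶜ)).Reachable v v' := by
        rw [SimpleGraph.ConnectedComponent.mem_supp_iff] at hv hv'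
        exact SimpleGraph.ConnectedComponent.exact (hv.trans hv'.symm)
      obtain ⟨p⟩ := h3
      cases p with
      | nil => exact absurd rfl hne
      | cons hadj _ => exact hvis _ _ hadj
    have h2 : ∃ v ∈ c.supp, ∃ w, Bin w ∧ n ≤ w.length ∧ pos s x w = (v : V) := by
      by_contra hcon
      push Not at hcon
      apply hc
      have h3 : (Subtype.val '' c.supp : Set V).Finite := by
        refine ((finite_short n).image (pos s x)).subset ?_
        rintro _ ⟨v, hv, rfl⟩
        obtain ⟨w, hw, hwv⟩ := h1 v hv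
        refine ⟨w, ⟨hw, ?_⟩, hwv⟩
        by_contra hlt
        exact hcon v hv w hw (not_lt.mp hlt) hwv
      exact Set.Finite.of_finite_image h3 Subtype.val_injective.injOn
    obtain ⟨v, hv, w, hw, hlw, hwv⟩ := h2
    have h4 : v = ⟨pos s x w, hn w hw hlw⟩ := Subtype.ext hwv.symm
    rw [SimpleGraph.ConnectedComponent.mem_supp_iff] at hv
    rw [← hv, h4]
    exact SimpleGraph.ConnectedComponent.sound (conn N s x hN hmeet K n hn w _ hw h0 hlw h0l)
  · refine le_iSup_of_le (∅ : Finset V) ?_
    rw [Set.one_le_encard_iff_nonempty]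
    have hn : ∀ w, Bin w → 0 ≤ w.length → pos s x w ∈ (((∅ : Finset V) : Set V)ᶜ) := by
      intro w _ _
      simp
    have hnil : Bin ([] : List ℕ) := by simp [Bin]
    refine ⟨SimpleGraph.connectedComponentMk _ ⟨pos s x [], hn [] hnil (Nat.zero_le _)⟩, ?_⟩
    change Set.Infinite _
    intro hf
    apply visited_infinite s x hfin
    refine (hf.image Subtype.val).subset ?_
    rintro z ⟨w, hw, rfl⟩
    refine ⟨⟨pos s x w, hn w hw (Nat.zero_le _)⟩, ?_, rfl⟩
    rw [SimpleGraph.ConnectedComponent.mem_supp_iff]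
    exact SimpleGraph.ConnectedComponent.sound
      (conn N s x hN hmeet ∅ 0 hn w [] hw hnil (Nat.zero_le _) (Nat.zero_le _))

end Pool.Agent.R638.BRW
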