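import Mathlib

/-! Branching random walks, their traces, spectral radius and ends (MP_b68431_pr): the definitions
used in the statement of the result. -/

open MeasureTheory ProbabilityTheory Set Filter Topology
open scoped ENNReal NNReal

namespace Pool.Agent.R638.BRW

section Kernel

variable {V : Type}

open Classical in
/-- The `n`-step transition probabilities of the kernel `P`. -/
noncomputable def stepProb (P : V → PMF V) : ℕ → V → V → ℝ≥0∞
  | 0, x, y => if x = y then 1 else 0
  | n + 1, x, y => ∑' z, P x z * stepProb P n z y

/-- `limsup_n P^n(x,y)^(1/n)`. -/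
noncomputable def specRad (P : V → PMF V) (x y : V) : ℝ≥0∞ :=
  limsup (fun n : ℕ => (stepProb P n x y) ^ ((n : ℝ)⁻¹)) atTop

/-- Irreducibility. -/
def Irred (P : V → PMF V) : Prop := ∀ x y, ∃ n, stepProb P n x y ≠ 0

/-- The walk moves along edges of `G`. -/
def NearestNeighbour (G : SimpleGraph V) (P : V → PMF V) : Prop := ∀ x y, P x y ≠ 0 → G.Adj x y

/-- Quasi-symmetry. -/
def QuasiSymmetric (P : V → PMF V) : Prop :=
  ∃ C : ℝ≥0, ∀ x y n, stepProb P n x y ≤ C * stepProb P n y x

/-- The mean of an offspring law. -/
noncomputable def mean (ν : PMF ℕ) : ℝ≥0∞ := ∑' k : ℕ, ν k * k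

end Kernel

section Walk

variable {V : Type}

/-- Particles are coded by lists of natural numbers: `[]` is the first particle and `k :: u` is
the child number `k` of the particle `u`. The particle `k :: u` exists when `u` exists and
`k < N u`, where `N u` is the number of children of `u`. -/
def alive (N : List ℕ → ℕ) : List ℕ → Prop
  | [] => True
  | k :: u => alive N u ∧ k < N u

/-- The position of a particle of the branching random walk started at `x`: `s (u, y)` is the
position to which the particle `u` steps when its parent is at `y`. -/
def pos (s : List ℕ × V → V) (x : V) : List ℕ → V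
  | [] => x
  | k :: u => s (k :: u, pos s x u)

/-- The trace: the graph of all edges traversed by some particle. -/
def trace (N : List ℕ → ℕ) (s : List ℕ × V → V) (x : V) : SimpleGraph V where
  Adj a b := a ≠ b ∧ ∃ (u : List ℕ) (k : ℕ), alive N (k :: u) ∧
    ((pos s x u = a ∧ pos s x (k :: u) = b) ∨ (pos s x u = b ∧ pos s x (k :: u) = a))
  symm := ⟨by
    rintro a b ⟨h, u, k, h1, h2⟩
    exact ⟨h.symm, u, k, h1, h2.symm⟩⟩
  loopless := ⟨fun a h => h.1 rfl⟩

/-- The number of ends: the supremum over finite sets `K` of vertices of the number of infinite
connected components of the graph with `K` removed. -/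
noncomputable def numEnds (H : SimpleGraph V) : ℕ∞ :=
  ⨆ K : Finset V,
    Set.encard {c : (H.induce ((K : Set V)ᶜ)).ConnectedComponent | c.supp.Infinite}

variable [MeasurableSpace V]

/-- Independent steps: the variables `s (u, y)` are independent and `s (u, y)` has law `P y`. -/
noncomputable def stepMeasure (P : V → PMF V) : Measure (List ℕ × V → V) :=
  Measure.infinitePi fun w : List ℕ × V => (P w.2).toMeasure

/-- The law of the randomness of the branching random walk with offspring law `ν` and kernel `P`:
the numbers `N u` of children are independent with law `ν`, and independent of the steps. -/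
noncomputable def brwMeasure (P : V → PMF V) (ν : PMF ℕ) :
    Measure ((List ℕ → ℕ) × (List ℕ × V → V)) :=
  (Measure.infinitePi fun _ : List ℕ => ν.toMeasure).prod (stepMeasure P)

end Walk

end Pool.Agent.R638.BRW
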