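import Pool.Agent.R638.BRW.C

/-! Assembly of the pieces. -/

open MeasureTheory ProbabilityTheory Set Filter Topology
open scoped ENNReal NNReal

namespace Pool.Agent.R638.BRW

theorem tMain (hK1 : StmK1) (hK2 : StmK2) (hPc : StmP) (hQ : StmQ) (hT : StmT) (hD : StmD)
    (hA1 : StmA1) :
    ∃ (V : Type) (_ : Infinite V) (_ : Countable V) (_ : MeasurableSpace V)
      (_ : DiscreteMeasurableSpace V) (G : SimpleGraph V) (P : V → PMF V) (ν : PMF ℕ)
      (ρ : ℝ≥0∞), G.Connected ∧ (∀ x, (G.neighborSet x).Finite) ∧ NearestNeighbour G P ∧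
      Irred P ∧ QuasiSymmetric P ∧ 0 < ρ ∧ ρ < 1 ∧ (∀ x y, specRad P x y = ρ) ∧
      ν 0 = 0 ∧ mean ν = ρ⁻¹ ∧
      ∀ x, ∀ᵐ ω ∂(brwMeasure P ν), numEnds (trace ω.1 ω.2 x) = 1 := by
  let P : VV → PMF VV := fun x => ⟨fun y => pp x y, by
    rw [← hK1.1 x]
    exact ENNReal.summable.hasSum⟩
  have hP : ∀ x y, P x y = pp x y := fun _ _ => rfl
  have hC : StmC := tC hPc (tA2 hK1 hA1)
  obtain ⟨hirr, hsym, hrad, hconn, hfin, hinf, hcount, hgreen⟩ := hK2 P hP
  refine ⟨VV, hinf, inferInstance, inferInstance, inferInstance, GG, P, PMF.pure 2, 1 / 2, hconn,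
    hfin, ?_, hirr, ?_, ?_, ?_, hrad, ?_, ?_, ?_⟩
  · intro x y h
    by_contra h1
    apply h
    rw [hP]
    unfold pp
    rw [if_neg h1]
  · refine ⟨1, fun x y n => ?_⟩
    rw [hsym x y n]
    simp
  · rw [one_div]
    exact ENNReal.inv_pos.2 (by norm_num)
  · rw [one_div]
    exact ENNReal.inv_lt_one.2 (by norm_num)
  · simp [PMF.pure_apply]
  · unfold mean
    rw [tsum_eq_single 2]
    · simp
    · intro k hk
      rw [PMF.pure_apply_of_ne _ _ hk]
      simp
  · intro x
    -- numbers of children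
    have hprob : IsProbabilityMeasure (stepMeasure P) := by
      unfold stepMeasure
      infer_instance
    have h1 : ∀ᵐ N ∂(Measure.infinitePi fun _ : List ℕ => (PMF.pure 2 : PMF ℕ).toMeasure),
        ∀ u, N u = 2 := by
      rw [ae_all_iff]
      intro u
      have h2 := (measurePreserving_eval_infinitePi
        (fun _ : List ℕ => (PMF.pure 2 : PMF ℕ).toMeasure) u).quasiMeasurePreserving
      have h3 : ∀ᵐ k ∂((PMF.pure 2 : PMF ℕ).toMeasure), k = 2 := by
        rw [PMF.toMeasure_pure, ae_dirac_eq]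
        rfl
      exact h2.ae h3
    have h4 : ∀ᵐ s ∂(stepMeasure P), numEnds (trace (fun _ => 2) s x) = 1 := by
      have e1 : ∀ᵐ s ∂(stepMeasure P), ∀ z, {u : List ℕ | Bin u ∧ pos s x u = z}.Finite := by
        rw [ae_all_iff]
        exact fun z => hT VV P x z (hgreen x z)
      have e2 : ∀ᵐ s ∂(stepMeasure P), ∀ (u v : List ℕ) (y y' : VV), u.length = v.length →
          u ≠ v → ¬ Disjoint (Vis s u y) (Vis s v y') := by
        rw [ae_all_iff]
        intro u
        rw [ae_all_iff]
        intro v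
        rw [ae_all_iff]
        intro y
        rw [ae_all_iff]
        intro y'
        by_cases h : u.length = v.length ∧ u ≠ v
        · have h5 := hQ VV P (1 - 16 / 1369) (by
            refine ENNReal.sub_lt_self (by norm_num) (by norm_num) ?_
            exact (ENNReal.div_pos (by norm_num) (by norm_num)).ne')
            (fun u v x y h1 h2 => hC P hP u v x y h1 h2) u v y y' h.1 h.2
          have h6 : ∀ᵐ s ∂(stepMeasure P), ¬ Disjoint (Vis s u y) (Vis s v y') := by
            rw [ae_iff]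
            simpa using h5
          filter_upwards [h6] with s hs _ _
          exact hs
        · exact Eventually.of_forall fun s ha hb => absurd ⟨ha, hb⟩ h
      filter_upwards [e1, e2] with s hs1 hs2
      exact hD VV (fun _ => 2) s x (fun _ => rfl) hs1 hs2
    have h5 : ∀ᵐ ω ∂(brwMeasure P (PMF.pure 2)), ∀ u, ω.1 u = 2 := by
      unfold brwMeasure
      exact Measure.quasiMeasurePreserving_fst.ae h1
    have h6 : ∀ᵐ ω ∂(brwMeasure P (PMF.pure 2)), numEnds (trace (fun _ => 2) ω.2 x) = 1 := by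
      unfold brwMeasure
      exact Measure.quasiMeasurePreserving_snd.ae h4
    filter_upwards [h5, h6] with ω hω1 hω2
    have h7 : ω.1 = fun _ => 2 := funext hω1
    rw [h7]
    exact hω2

end Pool.Agent.R638.BRW
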