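import Pool.Agent.R638.BRW.Stm

/-! Independence tools for `stepMeasure` (pieces P and Q). -/

set_option autoImplicit false

open MeasureTheory ProbabilityTheory Set Filter Topology
open scoped ENNReal NNReal

namespace Pool.Agent.R638.BRW

section Gen

/-- Composition with a countable discrete variable. -/
theorem meas_comp_gen {Ω V β : Type*} [Countable V] {m : MeasurableSpace Ω} [MeasurableSpace V]
    [DiscreteMeasurableSpace V] [MeasurableSpace β] {w : Ω → V} (hw : Measurable[m] w)
    {F : V → Ω → β} (hF : ∀ y, Measurable[m] (F y)) : Measurable[m] (fun s => F (w s) s) := by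
  intro t ht
  have h1 : (fun s => F (w s) s) ⁻¹' t = ⋃ y, (w ⁻¹' {y} ∩ (F y) ⁻¹' t) := by
    ext s
    simp only [mem_preimage, mem_iUnion, mem_inter_iff, mem_singleton_iff]
    constructor
    · intro h; exact ⟨w s, rfl, h⟩
    · rintro ⟨y, rfl, h⟩; exact h
  rw [h1]
  exact MeasurableSet.iUnion (fun y => (hw (MeasurableSet.of_discrete)).inter (hF y ht))

theorem ind_meas {Ω : Type*} {m : MeasurableSpace Ω} {A : Set Ω} (h : MeasurableSet[m] A) :
    Measurable[m] (A.indicator (1 : Ω → ℝ≥0∞)) := measurable_one.indicator h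

end Gen

section Tools

variable {V : Type} [Countable V] [MeasurableSpace V] [DiscreteMeasurableSpace V]

/-- The sigma-algebra of the nodes in `S`. -/
@[reducible]
def mm (S : Set (List ℕ × V)) : MeasurableSpace (List ℕ × V → V) :=
  ⨆ w ∈ S, MeasurableSpace.comap (fun s : List ℕ × V → V => s w) inferInstance

omit [Countable V] [DiscreteMeasurableSpace V] in
theorem mm_mono {S T : Set (List ℕ × V)} (h : S ⊆ T) : mm S ≤ mm T :=
  biSup_mono (fun _ hw => h hw)

omit [Countable V] [DiscreteMeasurableSpace V] in
theorem mm_le (S : Set (List ℕ × V)) : mm S ≤ (inferInstance : MeasurableSpace (List ℕ × V → V)) := by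
  refine iSup₂_le (fun w _ => ?_)
  exact (measurable_pi_apply w).comap_le

omit [Countable V] [DiscreteMeasurableSpace V] in
theorem mm_eval {S : Set (List ℕ × V)} {w : List ℕ × V} (hw : w ∈ S) :
    Measurable[mm S] (fun s : List ℕ × V → V => s w) := by
  rw [measurable_iff_comap_le]
  exact le_iSup₂_of_le w hw le_rfl

instance (P : V → PMF V) : IsProbabilityMeasure (stepMeasure P) := by
  unfold stepMeasure; infer_instance

omit [Countable V] [DiscreteMeasurableSpace V] in
theorem mm_indep (P : V → PMF V) {S T : Set (List ℕ × V)} (h : Disjoint S T) :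
    Indep (mm S) (mm T) (stepMeasure P) := by
  have h1 : iIndepFun (fun (w : List ℕ × V) (s : List ℕ × V → V) => s w) (stepMeasure P) :=
    iIndepFun_infinitePi (P := fun w : List ℕ × V => (P w.2).toMeasure) (X := fun _ x => x)
      (fun _ => measurable_id)
  exact indep_iSup_of_disjoint (fun w => (measurable_pi_apply w).comap_le) h1 h

omit [Countable V] in
theorem node_law (P : V → PMF V) (w : List ℕ × V) (y : V) :
    stepMeasure P {s | s w = y} = P w.2 y := by
  have h1 := (measurePreserving_eval_infinitePi (fun w : List ℕ × V => (P w.2).toMeasure) w)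
  have h2 := h1.measure_preimage (s := {y}) (MeasurableSet.of_discrete).nullMeasurableSet
  rw [PMF.toMeasure_apply_singleton _ _ (MeasurableSet.of_discrete)] at h2
  exact h2

/-- Conditioning on a node outside of `S`. -/
theorem lint_comp (P : V → PMF V) {S : Set (List ℕ × V)} {w : List ℕ × V} (hw : w ∉ S)
    {F : V → (List ℕ × V → V) → ℝ≥0∞} (hF : ∀ y, Measurable[mm S] (F y)) :
    ∫⁻ s, F (s w) s ∂(stepMeasure P) = ∑' y, P w.2 y * ∫⁻ s, F y s ∂(stepMeasure P) := by
  have hF' : ∀ y, Measurable (F y) := fun y => (hF y).mono (mm_le S) le_rfl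
  have h1 : ∀ s, F (s w) s = ∑' y, ({s | s w = y} : Set (List ℕ × V → V)).indicator 1 s * F y s := by
    intro s
    rw [tsum_eq_single (s w)]
    · simp
    · intro y hy
      have hn : s ∉ ({s | s w = y} : Set (List ℕ × V → V)) := fun h => hy (Eq.symm h)
      rw [indicator_of_notMem hn, zero_mul]
  have hms : ∀ y, MeasurableSet ({s | s w = y} : Set (List ℕ × V → V)) := fun y =>
    (measurable_pi_apply w : Measurable fun s : List ℕ × V → V => s w)
      (MeasurableSet.of_discrete (s := {y}))
  simp_rw [h1]
  have hmeas : ∀ y, AEMeasurable (fun s => ({s | s w = y} : Set (List ℕ × V → V)).indicator 1 s * F y s)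
      (stepMeasure P) := fun y => ((measurable_one.indicator (hms y)).mul (hF' y)).aemeasurable
  rw [lintegral_tsum hmeas]
  refine tsum_congr (fun y => ?_)
  have hd : Disjoint ({w} : Set (List ℕ × V)) S := Set.disjoint_singleton_left.2 hw
  rw [lintegral_mul_eq_lintegral_mul_lintegral_of_independent_measurableSpace
    (mm_le {w}) (mm_le S) (mm_indep P hd)]
  · rw [lintegral_indicator_one (hms y), node_law]
  · have h2 : MeasurableSet[mm ({w} : Set (List ℕ × V))] ({s | s w = y} : Set (List ℕ × V → V)) :=
      mm_eval (mem_singleton w) (MeasurableSet.of_discrete (s := {y}))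
    exact ind_meas h2
  · exact hF y

/-- The nodes strictly below `u`. -/
def Below (u : List ℕ) : Set (List ℕ × V) := {w | ∃ r : List ℕ, r ≠ [] ∧ w.1 = r ++ u}

/-- The nodes below `u`, including `u`. -/
def Sub (u : List ℕ) : Set (List ℕ × V) := {w | ∃ r : List ℕ, w.1 = r ++ u}

omit [Countable V] [MeasurableSpace V] [DiscreteMeasurableSpace V] in
theorem below_sub (u : List ℕ) : (Below u : Set (List ℕ × V)) ⊆ Sub u := by
  rintro w ⟨r, -, hr⟩; exact ⟨r, hr⟩

omit [Countable V] [MeasurableSpace V] [DiscreteMeasurableSpace V] in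
theorem sub_below (a : ℕ) (u : List ℕ) : (Sub (a :: u) : Set (List ℕ × V)) ⊆ Below u := by
  rintro w ⟨r, hr⟩
  exact ⟨r ++ [a], by simp, by rw [hr]; simp⟩

omit [Countable V] [MeasurableSpace V] [DiscreteMeasurableSpace V] in
theorem sub_disjoint {u v : List ℕ} (hl : u.length = v.length) (hne : u ≠ v) :
    Disjoint (Sub u : Set (List ℕ × V)) (Sub v) := by
  rw [Set.disjoint_left]
  rintro w ⟨r, hr⟩ ⟨r', hr'⟩
  rw [hr] at hr'
  exact hne (List.append_inj' hr' hl).2

omit [Countable V] [MeasurableSpace V] [DiscreteMeasurableSpace V] in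
theorem not_below {u v : List ℕ} (hl : u.length = v.length) (x : V) :
    ((u, x) : List ℕ × V) ∉ (Below v : Set (List ℕ × V)) := by
  rintro ⟨r, hr, h⟩
  have h1 : u.length = (r ++ v).length := congrArg List.length h
  rw [List.length_append] at h1
  have h2 : 0 < r.length := List.length_pos_iff.2 hr
  omega

omit [Countable V] [MeasurableSpace V] [DiscreteMeasurableSpace V] in
theorem rpos_append (s : List ℕ × V → V) (a : ℕ) (u : List ℕ) (x : V) (r : List ℕ) :
    rpos s u x (r ++ [a]) = rpos s (a :: u) (s (a :: u, x)) r := by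
  induction r with
  | nil => rfl
  | cons k r ih =>
    show s (k :: ((r ++ [a]) ++ u), rpos s u x (r ++ [a])) = s (k :: (r ++ (a :: u)), _)
    rw [ih]
    simp

omit [Countable V] [MeasurableSpace V] [DiscreteMeasurableSpace V] in
theorem vis_child (s : List ℕ × V → V) (a : ℕ) (ha : a < 2) (u : List ℕ) (x : V) :
    Vis s (a :: u) (s (a :: u, x)) ⊆ Vis s u x := by
  rintro z ⟨r, hr, rfl⟩
  refine ⟨r ++ [a], ?_, rpos_append s a u x r⟩
  intro k hk
  rcases List.mem_append.1 hk with h | h
  · exact hr k h
  · rw [List.mem_singleton] at h; omega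

theorem rpos_meas (u : List ℕ) (x : V) (r : List ℕ) :
    Measurable[mm (Below u)] (fun s : List ℕ × V → V => rpos s u x r) := by
  induction r with
  | nil => exact measurable_const
  | cons k r ih =>
    have h := meas_comp_gen (m := mm (Below u)) ih (F := fun y s => s (k :: (r ++ u), y))
      (fun y => mm_eval ⟨k :: r, by simp, rfl⟩)
    exact h

end Tools

end Pool.Agent.R638.BRW
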