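import Pool.Agent.R638.BRW.Stm

/-! Pieces K1, K2 for MP_b68431_pr. -/

open MeasureTheory ProbabilityTheory Set Filter Topology
open scoped ENNReal NNReal

namespace Pool.Agent.R638.BRW

namespace K

lemma al_pos (k : ℕ) : 0 < (al k).1 ∧ 0 < (al k).2 := by
  induction k with
  | zero => simp [al]
  | succ k ih => simp only [al]; omega

lemma be_pos (k : ℕ) : 0 < be k := (al_pos k).2

lemma be_zero : be 0 = 1 := rfl
lemma be_one : be 1 = 4 := rfl

lemma be_rec (k : ℕ) : be (k + 2) + be k = 4 * be (k + 1) := by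
  simp only [be, al]; ring

lemma be_row (k : ℕ) : be (k + 1) + (if k = 0 then 0 else be (k - 1)) = 4 * be k := by
  rcases k with _ | k
  · simp [be_zero, be_one]
  · rw [if_neg (Nat.succ_ne_zero k)]; exact be_rec k

/-- the adjacency in terms of layers. -/
lemma adj_iff (x y : VV) : GG.Adj x y ↔ (lay y = lay x + 1 ∨ lay x = lay y + 1) := Iff.rfl

lemma pp_comm (x y : VV) : pp x y = pp y x := by
  classical
  unfold pp
  by_cases h : GG.Adj x y
  · rw [if_pos h, if_pos h.symm]
    congr 1; ring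
  · rw [if_neg h, if_neg (fun h' => h h'.symm)]

lemma beE_ne (k : ℕ) : (be k : ℝ≥0∞) ≠ 0 := by exact_mod_cast (be_pos k).ne'
lemma beE_top (k : ℕ) : (be k : ℝ≥0∞) ≠ ⊤ := ENNReal.natCast_ne_top _

/-- sums of functions of the layer. -/
lemma tsum_lay (g : ℕ → ℝ≥0∞) : ∑' y : VV, g (lay y) = ∑' k, (be k : ℝ≥0∞) ^ 2 * g k := by
  have : ∑' y : (Σ k : ℕ, Fin (be k ^ 2)), g y.1 = ∑' k, ∑' _i : Fin (be k ^ 2), g k :=
    ENNReal.tsum_sigma' _
  refine this.trans (tsum_congr fun k => ?_)
  rw [tsum_fintype, Finset.sum_const, Finset.card_univ, Fintype.card_fin, nsmul_eq_mul]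
  push_cast; rfl

open Classical in
/-- the kernel as a function of layers. -/
noncomputable def qq (i k : ℕ) : ℝ≥0∞ :=
  if k = i + 1 ∨ i = k + 1 then (4 * (be i : ℝ≥0∞) * be k)⁻¹ else 0

lemma qq_pos {i k : ℕ} (h : k = i + 1 ∨ i = k + 1) : qq i k = (4 * (be i : ℝ≥0∞) * be k)⁻¹ := by
  unfold qq; rw [if_pos h]

lemma qq_neg {i k : ℕ} (h : ¬ (k = i + 1 ∨ i = k + 1)) : qq i k = 0 := by
  unfold qq; rw [if_neg h]

lemma pp_eq (x y : VV) : pp x y = qq (lay x) (lay y) := by
  unfold pp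
  by_cases h : GG.Adj x y
  · rw [if_pos h, qq_pos h]
  · rw [if_neg h, qq_neg h]

lemma sq_mul_inv (i k : ℕ) (c : ℝ≥0∞) : (be k : ℝ≥0∞) ^ 2 * ((4 * (be i : ℝ≥0∞) * be k)⁻¹ * c) =
    be k * c / (4 * be i) := by
  have h1 : (4 * (be i : ℝ≥0∞)) ≠ 0 := mul_ne_zero (by norm_num) (beE_ne i)
  rw [ENNReal.mul_inv (Or.inl h1) (Or.inr (beE_ne k)), ENNReal.div_eq_inv_mul, pow_two]
  calc (be k : ℝ≥0∞) * be k * ((4 * (be i : ℝ≥0∞))⁻¹ * (be k : ℝ≥0∞)⁻¹ * c)
      = (be k * (be k : ℝ≥0∞)⁻¹) * ((4 * (be i : ℝ≥0∞))⁻¹ * (be k * c)) := by ring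
    _ = _ := by rw [ENNReal.mul_inv_cancel (beE_ne k) (beE_top k), one_mul]

lemma layer_sum (x : VV) (φ : ℕ → ℝ≥0∞) : ∑' y, pp x y * φ (lay y) =
    (be (lay x + 1) * φ (lay x + 1) +
      (if lay x = 0 then 0 else be (lay x - 1) * φ (lay x - 1))) / (4 * be (lay x)) := by
  classical
  simp only [pp_eq]
  rw [tsum_lay (fun k => qq (lay x) k * φ k)]
  generalize lay x = n
  rcases n with _ | n
  · rw [tsum_eq_single 1]
    · rw [qq_pos (by omega), if_pos rfl, add_zero]
      exact sq_mul_inv 0 1 _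
    · intro k hk
      rw [qq_neg (by omega), zero_mul, mul_zero]
  · rw [tsum_eq_sum (s := {n, n + 2})]
    · rw [Finset.sum_pair (by omega), if_neg (Nat.succ_ne_zero n), Nat.add_sub_cancel,
        ENNReal.add_div, add_comm, qq_pos (by omega), qq_pos (by omega), sq_mul_inv, sq_mul_inv]
    · intro k hk
      simp only [Finset.mem_insert, Finset.mem_singleton, not_or] at hk
      rw [qq_neg (by omega), zero_mul, mul_zero]

lemma row_sum (x : VV) : ∑' y, pp x y = 1 := by
  have h := layer_sum x (fun _ => 1)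
  simp only [mul_one] at h
  rw [h]
  have h2 := be_row (lay x)
  have h3 : ((be (lay x + 1) : ℝ≥0∞) + (if lay x = 0 then 0 else (be (lay x - 1) : ℝ≥0∞))) =
      4 * be (lay x) := by
    rcases Nat.eq_zero_or_pos (lay x) with h0 | h0
    · rw [if_pos h0] at h2 ⊢
      exact_mod_cast h2
    · rw [if_neg h0.ne'] at h2 ⊢
      exact_mod_cast h2
  rw [h3]
  exact ENNReal.div_self (mul_ne_zero (by norm_num) (beE_ne _))
    (ENNReal.mul_ne_top (by norm_num) (beE_top _))

end K

/-- PIECE K1. -/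
theorem tK1 : StmK1 := ⟨K.row_sum, K.layer_sum⟩

namespace K

variable {V : Type}

lemma step_succ' (P : V → PMF V) (n : ℕ) (x y : V) :
    stepProb P (n + 1) x y = ∑' z, stepProb P n x z * P z y := by
  classical
  induction n generalizing x with
  | zero =>
    simp only [stepProb]
    rw [tsum_eq_single y, tsum_eq_single x]
    · simp
    · intro z hz; rw [if_neg (Ne.symm hz), zero_mul]
    · intro z hz; rw [if_neg hz, mul_zero]
  | succ n ih =>
    rw [stepProb]
    calc ∑' z, P x z * stepProb P (n + 1) z y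
        = ∑' z, ∑' w, P x z * (stepProb P n z w * P w y) := by
          refine tsum_congr fun z => ?_
          rw [ih z, ENNReal.tsum_mul_left]
      _ = ∑' w, ∑' z, P x z * (stepProb P n z w * P w y) := ENNReal.tsum_comm
      _ = ∑' w, stepProb P (n + 1) x w * P w y := by
          refine tsum_congr fun w => ?_
          rw [stepProb, ← ENNReal.tsum_mul_right]
          exact tsum_congr fun z => by rw [mul_assoc]

lemma step_symm (P : V → PMF V) (hP : ∀ x y, P x y = P y x) (x y : V) (n : ℕ) :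
    stepProb P n x y = stepProb P n y x := by
  classical
  induction n generalizing x y with
  | zero => simp only [stepProb, eq_comm]
  | succ n ih =>
    rw [step_succ', stepProb]
    refine tsum_congr fun z => ?_
    rw [ih x z, hP z y, mul_comm]

lemma irred_step (P : V → PMF V) {x z : V} (h : P x z ≠ 0) {n : ℕ} {y : V}
    (h2 : stepProb P n z y ≠ 0) : stepProb P (n + 1) x y ≠ 0 := by
  rw [stepProb]
  intro h0
  rw [ENNReal.tsum_eq_zero] at h0
  exact mul_ne_zero h h2 (h0 z)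

lemma irred_of_reach (P : V → PMF V) (G : SimpleGraph V) (hG : ∀ x y, G.Adj x y → P x y ≠ 0)
    {x y : V} (h : G.Reachable x y) : ∃ n, stepProb P n x y ≠ 0 := by
  obtain ⟨w⟩ := h
  induction w with
  | nil => exact ⟨0, by simp [stepProb]⟩
  | cons hadj _ ih =>
    obtain ⟨n, hn⟩ := ih
    exact ⟨n + 1, irred_step P (hG _ _ hadj) hn⟩

/-- the base point of layer `k`. -/
def pt (k : ℕ) : VV := ⟨k, ⟨0, pow_pos (be_pos k) 2⟩⟩

lemma lay_pt (k : ℕ) : lay (pt k) = k := rfl

lemma eq_pt_zero (x : VV) (h : lay x = 0) : x = pt 0 := by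
  obtain ⟨k, i⟩ := x
  have hk : k = 0 := h
  subst hk
  have : i = ⟨0, pow_pos (be_pos 0) 2⟩ := by
    apply Fin.ext
    have := i.2
    simp only [be_zero, one_pow] at this
    have h' : (i : ℕ) < 1 := this
    show (i : ℕ) = 0
    omega
  rw [this]; rfl

lemma reach_zero (x : VV) : GG.Reachable x (pt 0) := by
  obtain ⟨k, hk⟩ : ∃ k, lay x = k := ⟨_, rfl⟩
  induction k generalizing x with
  | zero => rw [eq_pt_zero x hk]
  | succ k ih =>
    have h1 : GG.Adj x (pt k) := Or.inr (by rw [lay_pt, hk])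
    exact h1.reachable.trans (ih _ (lay_pt k))

lemma connected : GG.Connected := by
  have : Nonempty VV := ⟨pt 0⟩
  exact ⟨fun x y => (reach_zero x).trans (reach_zero y).symm⟩

lemma fin_layers (N : ℕ) : {y : VV | lay y ≤ N}.Finite := by
  have h : (((Finset.range (N + 1)).sigma fun k => (Finset.univ : Finset (Fin (be k ^ 2)))) :
    Set (Σ k : ℕ, Fin (be k ^ 2))).Finite := Finset.finite_toSet _
  refine Set.Finite.subset h ?_
  intro y hy
  simp only [Finset.coe_sigma, Set.mem_sigma_iff, Finset.coe_range, Set.mem_Iio, Finset.coe_univ,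
    Set.mem_univ, and_true]
  exact Nat.lt_succ_of_le hy

lemma fin_nbr (x : VV) : (GG.neighborSet x).Finite := by
  refine (fin_layers (lay x + 1)).subset ?_
  intro y hy
  have h : lay y = lay x + 1 ∨ lay x = lay y + 1 := hy
  show lay y ≤ lay x + 1
  omega

lemma inf_VV : Infinite VV := Infinite.of_injective pt fun a b h => by
  have := congrArg lay h
  rwa [lay_pt, lay_pt] at this

lemma cnt_VV : Countable VV := inferInstanceAs (Countable (Σ k : ℕ, Fin (be k ^ 2)))

lemma pp_ne (x y : VV) (h : GG.Adj x y) : pp x y ≠ 0 := by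
  rw [pp_eq, qq_pos h]
  exact ENNReal.inv_ne_zero.2 (ENNReal.mul_ne_top (ENNReal.mul_ne_top (by norm_num) (beE_top _))
    (beE_top _))

/-- the supersolution. -/
noncomputable def UU (k i : ℕ) : ℝ≥0∞ := (2 * be k * (min i k + 1) : ℕ) / (be i : ℝ≥0∞)

lemma FF_ineq (k i : ℕ) : (if i = k then 2 * be k else 0) + (2 * be k * (min (i + 1) k + 1) +
    (if i = 0 then 0 else 2 * be k * (min (i - 1) k + 1))) ≤ 2 * (2 * be k * (min i k + 1)) := by
  have key : (if i = k then 1 else 0) + ((min (i + 1) k + 1) +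
    (if i = 0 then 0 else (min (i - 1) k + 1))) ≤ 2 * (min i k + 1) := by
    split_ifs <;> omega
  have := Nat.mul_le_mul_left (2 * be k) key
  refine le_trans (le_of_eq ?_) (this.trans (le_of_eq (by ring)))
  split_ifs <;> ring

open Classical in
lemma UU_super (x z : VV) : (if x = z then 1 else 0) + 2 * ∑' y, pp x y * UU (lay z) (lay y) ≤
    UU (lay z) (lay x) := by
  rw [layer_sum]
  have hc : ∀ i, (be i : ℝ≥0∞) * UU (lay z) i = (2 * be (lay z) * (min i (lay z) + 1) : ℕ) := by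
    intro i
    unfold UU
    rw [ENNReal.mul_div_cancel (beE_ne i) (beE_top i)]
  have hle : (if x = z then (1 : ℝ≥0∞) else 0) ≤ (if lay x = lay z then 1 else 0) := by
    by_cases h : x = z
    · rw [if_pos h, if_pos (by rw [h])]
    · rw [if_neg h]; exact zero_le
  refine (add_le_add_left hle _).trans ?_
  rw [hc, hc]
  generalize lay x = i
  generalize lay z = k
  have hb0 : (2 * (be i : ℝ≥0∞)) ≠ 0 := mul_ne_zero (by norm_num) (beE_ne i)
  have hbt : (2 * (be i : ℝ≥0∞)) ≠ ⊤ := ENNReal.mul_ne_top (by norm_num) (beE_top i)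
  have h1 : (if i = k then (1 : ℝ≥0∞) else 0) = ((if i = k then 2 * be k else 0 : ℕ) : ℝ≥0∞) /
      (2 * be i) := by
    split_ifs with h
    · subst h; push_cast; rw [ENNReal.div_self hb0 hbt]
    · simp
  have h2 : ∀ S : ℝ≥0∞, 2 * (S / (4 * be i)) = S / (2 * be i) := by
    intro S
    have : (4 * (be i : ℝ≥0∞)) = 2 * (2 * be i) := by ring
    rw [this, ← mul_div_assoc, ENNReal.mul_div_mul_left _ _ (by norm_num) (by norm_num)]
  have h3 : UU k i = ((2 * (2 * be k * (min i k + 1)) : ℕ) : ℝ≥0∞) / (2 * be i) := by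
    unfold UU
    rw [Nat.cast_mul 2, Nat.cast_two, ENNReal.mul_div_mul_left _ _ (by norm_num) (by norm_num)]
  have h4 : (if i = 0 then (0 : ℝ≥0∞) else ((2 * be k * (min (i - 1) k + 1) : ℕ) : ℝ≥0∞)) =
    ((if i = 0 then 0 else (2 * be k * (min (i - 1) k + 1)) : ℕ) : ℝ≥0∞) := by
    split_ifs <;> simp
  rw [h1, h2, h3, h4, ← ENNReal.add_div]
  gcongr
  exact_mod_cast FF_ineq k i

section PP

variable (P : VV → PMF VV) (hP : ∀ x y, P x y = pp x y)

include hP

lemma green_le (N : ℕ) (x z : VV) :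
    ∑ n ∈ Finset.range N, 2 ^ n * stepProb P n x z ≤ UU (lay z) (lay x) := by
  classical
  induction N generalizing x with
  | zero => simp
  | succ N ih =>
    rw [Finset.sum_range_succ']
    have h1 : ∑ n ∈ Finset.range N, 2 ^ (n + 1) * stepProb P (n + 1) x z =
        2 * ∑' y, pp x y * ∑ n ∈ Finset.range N, 2 ^ n * stepProb P n y z := by
      calc ∑ n ∈ Finset.range N, 2 ^ (n + 1) * stepProb P (n + 1) x z
          = ∑ n ∈ Finset.range N, 2 * ∑' y, pp x y * (2 ^ n * stepProb P n y z) := by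
            refine Finset.sum_congr rfl fun n _ => ?_
            rw [stepProb, pow_succ', mul_assoc, ← ENNReal.tsum_mul_left]
            congr 1
            refine tsum_congr fun y => ?_
            rw [hP]; ring
        _ = 2 * ∑ n ∈ Finset.range N, ∑' y, pp x y * (2 ^ n * stepProb P n y z) := by
            rw [Finset.mul_sum]
        _ = _ := by
            congr 1
            rw [← Summable.tsum_finsetSum (fun _ _ => ENNReal.summable)]
            refine tsum_congr fun y => ?_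
            rw [Finset.mul_sum]
    rw [h1]
    have h2 : ∑' y, pp x y * ∑ n ∈ Finset.range N, 2 ^ n * stepProb P n y z ≤
        ∑' y, pp x y * UU (lay z) (lay y) := ENNReal.tsum_le_tsum fun y => by
          gcongr; exact ih y
    refine le_trans ?_ (UU_super x z)
    rw [add_comm, pow_zero, one_mul, stepProb]
    exact add_le_add le_rfl (mul_le_mul_right h2 2)

lemma green_fin (x z : VV) : ∑' n, 2 ^ n * stepProb P n x z ≠ ⊤ := by
  have h : ∑' n, 2 ^ n * stepProb P n x z ≤ UU (lay z) (lay x) := by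
    rw [ENNReal.tsum_eq_iSup_nat]
    exact iSup_le fun N => green_le P hP N x z
  refine ne_top_of_le_ne_top ?_ h
  unfold UU
  exact ENNReal.div_ne_top (ENNReal.natCast_ne_top _) (beE_ne _)

lemma specRad_le (x y : VV) : specRad P x y ≤ 1 / 2 := by
  refine le_of_forall_gt_imp_ge_of_dense fun a ha => ?_
  unfold specRad
  refine limsup_le_of_le (by isBoundedDefault) ?_
  set C := ∑' n, 2 ^ n * stepProb P n x y with hC
  have hCt : C ≠ ⊤ := green_fin P hP x y
  by_cases hat : a = ⊤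
  · subst hat; exact Eventually.of_forall fun n => le_top
  have h1 : Tendsto (fun n : ℕ => (2 * a) ^ n) atTop (𝓝 ⊤) := by
    rw [ENNReal.tendsto_pow_atTop_nhds_top_iff]
    calc (1 : ℝ≥0∞) = 2 * (1 / 2) := by
          rw [one_div, ENNReal.mul_inv_cancel (by norm_num) (by norm_num)]
      _ < 2 * a := by
          exact (ENNReal.mul_lt_mul_iff_right (by norm_num) (by norm_num)).2 ha
  have h2 : ∀ᶠ n : ℕ in atTop, C < (2 * a) ^ n := h1.eventually (lt_mem_nhds (lt_top_iff_ne_top.2 hCt))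
  filter_upwards [h2, eventually_gt_atTop 0] with n hn hn0
  have h3 : 2 ^ n * stepProb P n x y ≤ 2 ^ n * a ^ n := by
    rw [← mul_pow]
    exact (ENNReal.le_tsum n).trans hn.le
  have h4 : stepProb P n x y ≤ a ^ n :=
    (ENNReal.mul_le_mul_iff_right (pow_ne_zero _ (by norm_num)) (ENNReal.pow_ne_top (by norm_num))).1 h3
  calc (stepProb P n x y) ^ ((n : ℝ)⁻¹) ≤ (a ^ n) ^ ((n : ℝ)⁻¹) :=
        ENNReal.rpow_le_rpow h4 (by positivity)
    _ = a := by
        rw [← ENNReal.rpow_natCast, ← ENNReal.rpow_mul, mul_inv_cancel₀ (by positivity),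
          ENNReal.rpow_one]

lemma step_le_one (n : ℕ) (x y : VV) : stepProb P n x y ≤ 1 := by
  classical
  induction n generalizing x with
  | zero => rw [stepProb]; split_ifs <;> simp
  | succ n ih =>
    rw [stepProb]
    calc ∑' z, P x z * stepProb P n z y ≤ ∑' z, P x z * 1 :=
          ENNReal.tsum_le_tsum fun z => mul_le_mul_right (ih z) _
      _ = 1 := by simp only [mul_one]; exact (P x).tsum_coe

open Classical in
lemma u_eq (l : ℝ≥0∞) (w y : VV) : ∑' n, l ^ n * stepProb P n w y =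
    (if w = y then 1 else 0) + l * ∑' z, pp w z * ∑' n, l ^ n * stepProb P n z y := by
  rw [tsum_eq_zero_add' ENNReal.summable, pow_zero, one_mul, stepProb]
  congr 1
  calc ∑' n, l ^ (n + 1) * stepProb P (n + 1) w y
      = ∑' n, l * ∑' z, pp w z * (l ^ n * stepProb P n z y) := by
        refine tsum_congr fun n => ?_
        rw [stepProb, pow_succ', mul_assoc, ← ENNReal.tsum_mul_left]
        congr 1
        refine tsum_congr fun z => ?_
        rw [hP]; ring
    _ = l * ∑' n, ∑' z, pp w z * (l ^ n * stepProb P n z y) := ENNReal.tsum_mul_left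
    _ = l * ∑' z, ∑' n, pp w z * (l ^ n * stepProb P n z y) := by rw [ENNReal.tsum_comm]
    _ = _ := by
        congr 1
        exact tsum_congr fun z => ENNReal.tsum_mul_left

end PP

lemma no_pos_seq (R : ℕ → ℝ) (hR : ∀ i, 0 < R i) (c : ℝ) (hc : c < 2)
    (h : ∀ j, R (j + 2) + R j ≤ c * R (j + 1)) : False := by
  have key : ∀ i : ℕ, R (i + 1) ≤ (R 1 / R 0 - i * (2 - c)) * R i := by
    intro i
    induction i with
    | zero => simp [(hR 0).ne']
    | succ i ih =>
      set t := R 1 / R 0 - i * (2 - c) with ht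
      have h1 := h i
      have h2 : 0 ≤ (t * R (i + 1) + R i - 2 * R (i + 1)) * R i := by
        have h3 := mul_le_mul_of_nonneg_right ih (hR (i + 1)).le
        nlinarith [sq_nonneg (R (i + 1) - R i)]
      have h4 : 0 ≤ t * R (i + 1) + R i - 2 * R (i + 1) := nonneg_of_mul_nonneg_left h2 (hR i)
      have h5 : R 1 / R 0 - ((i + 1 : ℕ) : ℝ) * (2 - c) = t - (2 - c) := by
        rw [ht]; push_cast; ring
      rw [h5]
      have h6 : R (i + 1 + 1) = R (i + 2) := rfl
      rw [h6]
      nlinarith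
  obtain ⟨N, hN⟩ := exists_nat_gt ((R 1 / R 0) / (2 - c))
  rw [div_lt_iff₀ (by linarith)] at hN
  have h1 := key N
  have h2 := hR (N + 1)
  have h3 := hR N
  nlinarith

section PP

variable (P : VV → PMF VV) (hP : ∀ x y, P x y = pp x y)

include hP

lemma adj_P {x y : VV} (h : GG.Adj x y) : P x y ≠ 0 := by rw [hP]; exact pp_ne x y h

lemma irred : Irred P := fun x y =>
  irred_of_reach P GG (fun _ _ h => adj_P P hP h) (connected.preconnected x y)

/-- no finite `λ`-Green function for `λ > 2`. -/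
lemma no_green (l : ℝ≥0∞) (hl : 2 < l) (hlt : l ≠ ⊤) (x y : VV)
    (hx : ∑' n, l ^ n * stepProb P n x y ≠ ⊤) : False := by
  classical
  have hl0 : l ≠ 0 := (lt_of_le_of_lt zero_le hl).ne'
  set u : VV → ℝ≥0∞ := fun w => ∑' n, l ^ n * stepProb P n w y with hu
  have hueq : ∀ w, u w = (if w = y then 1 else 0) + l * ∑' z, pp w z * u z := fun w =>
    u_eq P hP l w y
  have huge : ∀ w, l * ∑' z, pp w z * u z ≤ u w := fun w => by
    conv_rhs => rw [hueq w]
    exact le_add_self
  have hadj : ∀ w z, GG.Adj w z → u w ≠ ⊤ → u z ≠ ⊤ := by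
    intro w z h hw hz
    apply hw
    refine top_le_iff.1 (le_trans ?_ (huge w))
    have h1 : pp w z * u z ≤ ∑' z, pp w z * u z := ENNReal.le_tsum z
    rw [hz, ENNReal.mul_top (pp_ne w z h), top_le_iff] at h1
    rw [h1, ENNReal.mul_top hl0]
  have hwalk : ∀ a b, GG.Reachable a b → u a ≠ ⊤ → u b ≠ ⊤ := by
    rintro a b ⟨p⟩
    induction p with
    | nil => exact id
    | cons h _ ih => exact fun h1 => ih (hadj _ _ h h1)
  have hut : ∀ w, u w ≠ ⊤ := fun w => hwalk x w (connected.preconnected x w) hx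
  have hu0 : ∀ w, u w ≠ 0 := by
    intro w h0
    obtain ⟨n, hn⟩ := irred P hP w y
    rw [hu] at h0
    simp only [ENNReal.tsum_eq_zero] at h0
    exact mul_ne_zero (pow_ne_zero n hl0) hn (h0 n)
  set vL : ℕ → ℝ≥0∞ := fun i => ∑' z, qq i (lay z) * u z with hvL
  have hv : ∀ w, ∑' z, pp w z * u z = vL (lay w) := fun w => tsum_congr fun z => by rw [pp_eq]
  have hule : ∀ w, l * vL (lay w) ≤ u w := fun w => by rw [← hv]; exact huge w
  have hvt : ∀ i, vL i ≠ ⊤ := by
    intro i h
    have h1 := hule (pt i)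
    rw [lay_pt, h, ENNReal.mul_top hl0, top_le_iff] at h1
    exact hut _ h1
  have hv0 : ∀ i, vL i ≠ 0 := by
    intro i h
    have h1 : vL i = ∑' z, pp (pt i) z * u z := (hv (pt i)).symm
    rw [h1, ENNReal.tsum_eq_zero] at h
    exact mul_ne_zero (pp_ne (pt i) (pt (i + 1)) (Or.inl rfl)) (hu0 _) (h (pt (i + 1)))
  have hineq : ∀ i, (be (i + 1) * (l * vL (i + 1)) +
      (if i = 0 then 0 else be (i - 1) * (l * vL (i - 1)))) / (4 * be i) ≤ vL i := by
    intro i
    have h1 := layer_sum (pt i) (fun k => l * vL k)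
    rw [lay_pt] at h1
    rw [← h1, ← lay_pt i, ← hv (pt i), lay_pt]
    exact ENNReal.tsum_le_tsum fun z => mul_le_mul_right (hule z) _
  have hW : ∀ j, l * (be (j + 2) * vL (j + 2) + be j * vL j) ≤ 4 * (be (j + 1) * vL (j + 1)) := by
    intro j
    have h1 := hineq (j + 1)
    rw [if_neg (Nat.succ_ne_zero j), Nat.add_sub_cancel, ENNReal.div_le_iff
      (mul_ne_zero (by norm_num) (beE_ne _)) (ENNReal.mul_ne_top (by norm_num) (beE_top _))] at h1
    calc _ = (be (j + 1 + 1) * (l * vL (j + 1 + 1)) + be j * (l * vL j)) := by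
          rw [show j + 1 + 1 = j + 2 from rfl]; ring
      _ ≤ _ := h1
      _ = _ := by ring
  have hWt : ∀ i, (be i : ℝ≥0∞) * vL i ≠ ⊤ := fun i => ENNReal.mul_ne_top (beE_top i) (hvt i)
  have hW0 : ∀ i, (be i : ℝ≥0∞) * vL i ≠ 0 := fun i => mul_ne_zero (beE_ne i) (hv0 i)
  have hlr : 2 < l.toReal := by
    have := (ENNReal.toReal_lt_toReal (by norm_num) hlt).2 hl
    simpa using this
  refine no_pos_seq (fun i => ((be i : ℝ≥0∞) * vL i).toReal)
    (fun i => ENNReal.toReal_pos (hW0 i) (hWt i)) (4 / l.toReal) ?_ ?_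
  · rw [div_lt_iff₀ (by linarith)]; linarith
  · intro j
    have h1 := (ENNReal.toReal_le_toReal
      (ENNReal.mul_ne_top hlt (ENNReal.add_ne_top.2 ⟨hWt (j + 2), hWt j⟩))
      (ENNReal.mul_ne_top (by norm_num) (hWt (j + 1)))).2 (hW j)
    rw [ENNReal.toReal_mul, ENNReal.toReal_add (hWt _) (hWt _), ENNReal.toReal_mul (a := 4)] at h1
    have h4 : (4 : ℝ≥0∞).toReal = 4 := by norm_num
    rw [h4] at h1
    show _ ≤ 4 / l.toReal * ((be (j + 1) : ℝ≥0∞) * vL (j + 1)).toReal
    rw [div_mul_eq_mul_div, le_div_iff₀ (by linarith)]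
    linarith

lemma le_specRad (x y : VV) : 1 / 2 ≤ specRad P x y := by
  classical
  by_contra h
  push Not at h
  obtain ⟨a, ha1, ha2⟩ := exists_between h
  obtain ⟨b, hb1, hb2⟩ := exists_between ha2
  have hb0 : b ≠ 0 := (lt_of_le_of_lt zero_le hb1).ne'
  have hbt : b ≠ ⊤ := (hb2.trans_le le_top).ne
  have hev := eventually_lt_of_limsup_lt ha1
  obtain ⟨N, hN⟩ := eventually_atTop.1 (hev.and (eventually_gt_atTop 0))
  have hstep : ∀ n, N ≤ n → stepProb P n x y ≤ a ^ n := by
    intro n hn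
    obtain ⟨h1, h2⟩ := hN n hn
    calc stepProb P n x y = ((stepProb P n x y) ^ ((n : ℝ)⁻¹)) ^ n := by
          rw [← ENNReal.rpow_natCast, ← ENNReal.rpow_mul, inv_mul_cancel₀ (by positivity),
            ENNReal.rpow_one]
      _ ≤ a ^ n := pow_le_pow_left₀ zero_le h1.le n
  have hl2 : 2 < b⁻¹ := by
    have : (2 : ℝ≥0∞) = (1 / 2)⁻¹ := by simp
    rw [this]
    exact ENNReal.inv_lt_inv.2 hb2
  have hlt : b⁻¹ ≠ ⊤ := ENNReal.inv_ne_top.2 hb0
  refine no_green P hP b⁻¹ hl2 hlt x y ?_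
  have hr : b⁻¹ * a < 1 := by
    rw [mul_comm, ← div_eq_mul_inv]
    exact ENNReal.div_lt_of_lt_mul (by rwa [one_mul])
  have hle : ∑' n, b⁻¹ ^ n * stepProb P n x y ≤
      ∑' n, ((if n < N then b⁻¹ ^ n else 0) + (b⁻¹ * a) ^ n) := by
    refine ENNReal.tsum_le_tsum fun n => ?_
    by_cases hn : n < N
    · rw [if_pos hn]
      refine le_trans ?_ le_self_add
      calc _ ≤ b⁻¹ ^ n * 1 := mul_le_mul_right (step_le_one P hP n x y) _
        _ = _ := mul_one _
    · rw [if_neg hn, zero_add, mul_pow]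
      exact mul_le_mul_right (hstep n (not_lt.1 hn)) _
  refine ne_top_of_le_ne_top ?_ hle
  rw [ENNReal.tsum_add, ENNReal.tsum_geometric]
  refine ENNReal.add_ne_top.2 ⟨?_, ENNReal.inv_ne_top.2 (tsub_pos_of_lt hr).ne'⟩
  rw [tsum_eq_sum (s := Finset.range N) (fun n hn => if_neg (by simpa using hn))]
  refine ENNReal.sum_ne_top.2 fun n _ => ?_
  split_ifs
  · exact ENNReal.pow_ne_top hlt
  · exact ENNReal.zero_ne_top

end PP

end K

/-- PIECE K2. -/
theorem tK2 : StmK2 := by
  intro P hP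
  refine ⟨K.irred P hP, fun x y n => K.step_symm P (fun a b => by rw [hP, hP, K.pp_comm]) x y n,
    fun x y => le_antisymm (K.specRad_le P hP x y) (K.le_specRad P hP x y), K.connected, K.fin_nbr,
    K.inf_VV, K.cnt_VV, fun x z => K.green_fin P hP x z⟩

end Pool.Agent.R638.BRW

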