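import Pool.Agent.R638.BRW.Ind

/-! Piece P. -/

set_option autoImplicit false

open MeasureTheory ProbabilityTheory Set Filter Topology
open scoped ENNReal NNReal

namespace Pool.Agent.R638.BRW

section Tools

variable {V : Type} [Countable V] [MeasurableSpace V] [DiscreteMeasurableSpace V]

theorem add_meas_gen {Ω : Type*} {m : MeasurableSpace Ω} {f g : Ω → ℝ≥0∞} (hf : Measurable[m] f)
    (hg : Measurable[m] g) : Measurable[m] (fun s => f s + g s) := hf.add hg

theorem mul_meas_gen {Ω : Type*} {m : MeasurableSpace Ω} {f g : Ω → ℝ≥0∞} (hf : Measurable[m] f)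
    (hg : Measurable[m] g) : Measurable[m] (fun s => f s * g s) := hf.mul hg

theorem cnt_meas (A : Set V) (n : ℕ) (u : List ℕ) (x z : V) :
    Measurable[mm (Below u)] (fun s : List ℕ × V → V => cnt A s n u x z) := by
  induction n generalizing u x with
  | zero => exact measurable_const
  | succ n ih =>
    by_cases hx : x ∈ A
    · simp only [cnt, if_pos hx]
      have h1 : ∀ a : ℕ, Measurable[mm (Below u)]
          (fun s : List ℕ × V → V => cnt A s n (a :: u) (s (a :: u, x)) z) := by
        intro a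
        refine meas_comp_gen (m := mm (Below u)) (w := fun s : List ℕ × V → V => s (a :: u, x))
          (mm_eval ⟨[a], by simp, rfl⟩) (F := fun y s => cnt A s n (a :: u) y z) (fun y => ?_)
        exact (ih (a :: u) y).mono (mm_mono ((below_sub _).trans (sub_below a u))) le_rfl
      exact add_meas_gen measurable_const (add_meas_gen (h1 0) (h1 1))
    · simp only [cnt, if_neg hx]
      exact measurable_const

/-- The variable of a child. -/
theorem child_meas (A : Set V) (n : ℕ) (a : ℕ) (u : List ℕ) (x z : V) :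
    Measurable[mm (Sub (a :: u))]
      (fun s : List ℕ × V → V => cnt A s n (a :: u) (s (a :: u, x)) z) := by
  refine meas_comp_gen (m := mm (Sub (a :: u))) (w := fun s : List ℕ × V → V => s (a :: u, x))
    (mm_eval ⟨[], rfl⟩) (F := fun y s => cnt A s n (a :: u) y z) (fun y => ?_)
  exact (cnt_meas A n (a :: u) y z).mono (mm_mono (below_sub _)) le_rfl

theorem child_meas' (A : Set V) (n : ℕ) (a : ℕ) (u : List ℕ) (x z : V) :
    Measurable (fun s : List ℕ × V → V => cnt A s n (a :: u) (s (a :: u, x)) z) :=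
  (child_meas A n a u x z).mono (mm_le _) le_rfl

theorem cnt_mean (P : V → PMF V) (A : Set V) (n : ℕ) (u : List ℕ) (x z : V) :
    ∫⁻ s, cnt A s n u x z ∂(stepMeasure P) = gE P A n x z := by
  induction n generalizing u x with
  | zero => simp [cnt, gE]
  | succ n ih =>
    by_cases hx : x ∈ A
    · simp only [cnt, gE, if_pos hx]
      have h1 : ∀ a : ℕ, ∫⁻ s, cnt A s n (a :: u) (s (a :: u, x)) z ∂(stepMeasure P)
          = ∑' y, P x y * gE P A n y z := by
        intro a
        rw [lint_comp P (not_below (u := a :: u) rfl x) (F := fun y s => cnt A s n (a :: u) y z)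
          (fun y => cnt_meas A n (a :: u) y z)]
        simp_rw [ih]
      rw [lintegral_add_left measurable_const, lintegral_add_left (child_meas' A n 0 u x z),
        h1, h1, lintegral_const, measure_univ, mul_one, two_mul]
    · simp [cnt, gE, hx]

theorem cnt_sq (P : V → PMF V) (A : Set V) (n : ℕ) (u : List ℕ) (x z z' : V) :
    ∫⁻ s, cnt A s n u x z * cnt A s n u x z' ∂(stepMeasure P) = mE P A n x z z' := by
  classical
  induction n generalizing u x with
  | zero => simp [cnt, mE]
  | succ n ih =>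
    by_cases hx : x ∈ A
    · simp only [cnt, mE, if_pos hx]
      set c : ℝ≥0∞ := if x = z then 1 else 0 with hc
      set c' : ℝ≥0∞ := if x = z' then 1 else 0 with hc'
      let X : ℕ → (List ℕ × V → V) → ℝ≥0∞ := fun a s => cnt A s n (a :: u) (s (a :: u, x)) z
      let X' : ℕ → (List ℕ × V → V) → ℝ≥0∞ := fun a s => cnt A s n (a :: u) (s (a :: u, x)) z'
      have hX : ∀ a, Measurable (X a) := fun a => child_meas' A n a u x z
      have hX' : ∀ a, Measurable (X' a) := fun a => child_meas' A n a u x z'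
      have m1 : ∀ a : ℕ, ∫⁻ s, X a s ∂(stepMeasure P) = ∑' y, P x y * gE P A n y z := by
        intro a
        show ∫⁻ s, cnt A s n (a :: u) (s (a :: u, x)) z ∂(stepMeasure P) = _
        rw [lint_comp P (not_below (u := a :: u) rfl x) (F := fun y s => cnt A s n (a :: u) y z)
          (fun y => cnt_meas A n (a :: u) y z)]
        simp_rw [cnt_mean]
      have m1' : ∀ a : ℕ, ∫⁻ s, X' a s ∂(stepMeasure P) = ∑' y, P x y * gE P A n y z' := by
        intro a
        show ∫⁻ s, cnt A s n (a :: u) (s (a :: u, x)) z' ∂(stepMeasure P) = _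
        rw [lint_comp P (not_below (u := a :: u) rfl x) (F := fun y s => cnt A s n (a :: u) y z')
          (fun y => cnt_meas A n (a :: u) y z')]
        simp_rw [cnt_mean]
      have m2 : ∀ a : ℕ, ∫⁻ s, X a s * X' a s ∂(stepMeasure P)
          = ∑' y, P x y * mE P A n y z z' := by
        intro a
        show ∫⁻ s, cnt A s n (a :: u) (s (a :: u, x)) z * cnt A s n (a :: u) (s (a :: u, x)) z'
          ∂(stepMeasure P) = _
        rw [lint_comp P (not_below (u := a :: u) rfl x)
          (F := fun y s => cnt A s n (a :: u) y z * cnt A s n (a :: u) y z')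
          (fun y => mul_meas_gen (cnt_meas A n (a :: u) y z) (cnt_meas A n (a :: u) y z'))]
        simp_rw [ih]
      have hind : ∀ a b : ℕ, a ≠ b → ∫⁻ s, X a s * X' b s ∂(stepMeasure P)
          = (∑' y, P x y * gE P A n y z) * (∑' y, P x y * gE P A n y z') := by
        intro a b hab
        have hd : Disjoint (Sub (a :: u) : Set (List ℕ × V)) (Sub (b :: u)) :=
          sub_disjoint rfl (fun h => hab (List.cons.inj h).1)
        rw [lintegral_mul_eq_lintegral_mul_lintegral_of_independent_measurableSpace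
          (mm_le _) (mm_le _) (mm_indep P hd) (child_meas A n a u x z) (child_meas A n b u x z')]
        rw [m1, m1']
      have hexp : ∀ s, (c + (X 0 s + X 1 s)) * (c' + (X' 0 s + X' 1 s))
          = c * c' + (c * (X' 0 s + X' 1 s) + (c' * (X 0 s + X 1 s)
            + ((X 0 s * X' 0 s + X 1 s * X' 1 s) + (X 0 s * X' 1 s + X 1 s * X' 0 s)))) := by
        intro s; ring
      have hgoal : ∫⁻ s, (c + (X 0 s + X 1 s)) * (c' + (X' 0 s + X' 1 s)) ∂(stepMeasure P)
          = c * c' + (c * (2 * ∑' y, P x y * gE P A n y z') + (c' * (2 * ∑' y, P x y * gE P A n y z)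
            + (2 * (∑' y, P x y * mE P A n y z z')
              + 2 * ((∑' y, P x y * gE P A n y z) * (∑' y, P x y * gE P A n y z'))))) := by
        simp_rw [hexp]
        have a1 : Measurable (fun s => X' 0 s + X' 1 s) := add_meas_gen (hX' 0) (hX' 1)
        have a2 : Measurable (fun s => X 0 s + X 1 s) := add_meas_gen (hX 0) (hX 1)
        have b1 : Measurable (fun s => c * (X' 0 s + X' 1 s)) := a1.const_mul c
        have b2 : Measurable (fun s => c' * (X 0 s + X 1 s)) := a2.const_mul c'
        have b3 : Measurable (fun s => X 0 s * X' 0 s) := mul_meas_gen (hX 0) (hX' 0)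
        have b4 : Measurable (fun s => X 1 s * X' 1 s) := mul_meas_gen (hX 1) (hX' 1)
        have b5 : Measurable (fun s => X 0 s * X' 1 s) := mul_meas_gen (hX 0) (hX' 1)
        have b6 : Measurable (fun s => X 0 s * X' 0 s + X 1 s * X' 1 s) := add_meas_gen b3 b4
        rw [lintegral_add_left measurable_const, lintegral_add_left b1, lintegral_add_left b2,
          lintegral_add_left b6, lintegral_add_left b3, lintegral_add_left b5,
          lintegral_const_mul _ a1, lintegral_const_mul _ a2,
          lintegral_add_left (hX' 0), lintegral_add_left (hX 0), m1, m1, m1', m1', m2, m2,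
          hind 0 1 (by norm_num)]
        have h10 : ∫⁻ s, X 1 s * X' 0 s ∂(stepMeasure P)
          = (∑' y, P x y * gE P A n y z) * (∑' y, P x y * gE P A n y z') := hind 1 0 (by norm_num)
        rw [h10, lintegral_const, measure_univ, mul_one]
        ring
      have hgoal2 : ∫⁻ s, ((if x = z then 1 else 0) + (cnt A s n (0 :: u) (s (0 :: u, x)) z
          + cnt A s n (1 :: u) (s (1 :: u, x)) z)) * ((if x = z' then 1 else 0)
          + (cnt A s n (0 :: u) (s (0 :: u, x)) z' + cnt A s n (1 :: u) (s (1 :: u, x)) z'))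
          ∂(stepMeasure P)
          = c * c' + (c * (2 * ∑' y, P x y * gE P A n y z') + (c' * (2 * ∑' y, P x y * gE P A n y z)
            + (2 * (∑' y, P x y * mE P A n y z z')
              + 2 * ((∑' y, P x y * gE P A n y z) * (∑' y, P x y * gE P A n y z'))))) := hgoal
      refine hgoal2.trans ?_
      have e1 : c * c' = if x = z ∧ x = z' then 1 else 0 := by
        rw [hc, hc']
        by_cases h1 : x = z <;> by_cases h2 : x = z' <;> simp [h1, h2]
      have e2 : c * (2 * ∑' y, P x y * gE P A n y z')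
          = if x = z then 2 * ∑' y, P x y * gE P A n y z' else 0 := by
        rw [hc]; split_ifs <;> simp
      have e3 : c' * (2 * ∑' y, P x y * gE P A n y z)
          = if x = z' then 2 * ∑' y, P x y * gE P A n y z else 0 := by
        rw [hc']; split_ifs <;> simp
      rw [e1, e2, e3]
      ring
    · simp [cnt, mE, hx]

omit [Countable V] [MeasurableSpace V] [DiscreteMeasurableSpace V] in
theorem cnt_vis (A : Set V) (s : List ℕ × V → V) (n : ℕ) (u : List ℕ) (x z : V)
    (h : cnt A s n u x z ≠ 0) : z ∈ Vis s u x := by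
  induction n generalizing u x with
  | zero => exact absurd rfl h
  | succ n ih =>
    by_cases hx : x ∈ A
    · simp only [cnt, if_pos hx] at h
      by_cases hz : x = z
      · exact ⟨[], by intro k hk; simp at hk, hz⟩
      · rw [if_neg hz, zero_add] at h
        by_cases h0 : cnt A s n (0 :: u) (s (0 :: u, x)) z = 0
        · rw [h0, zero_add] at h
          exact vis_child s 1 (by norm_num) u x (ih _ _ h)
        · exact vis_child s 0 (by norm_num) u x (ih _ _ h0)
    · simp [cnt, hx] at h

end Tools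

/-- The second moment method. -/
theorem second_moment {Ω : Type*} [MeasurableSpace Ω] (μ : Measure Ω) (C : Ω → ℝ≥0∞)
    (hC : Measurable C) (E : Set Ω) (hE : ∀ s, C s ≠ 0 → s ∈ E) :
    (∫⁻ s, C s ∂μ) ^ 2 ≤ μ E * ∫⁻ s, C s ^ 2 ∂μ := by
  have hm : MeasurableSet {s | C s ≠ 0} := (hC (measurableSet_singleton 0)).compl
  have h1 : ∫⁻ s, C s ∂μ
      = ∫⁻ s, (({s | C s ≠ 0} : Set Ω).indicator (1 : Ω → ℝ≥0∞) * C) s ∂μ := by
    refine lintegral_congr (fun s => ?_)
    rw [Pi.mul_apply]
    by_cases h : C s = 0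
    · rw [h, mul_zero]
    · have h' : s ∈ ({s | C s ≠ 0} : Set Ω) := h
      rw [indicator_of_mem h', Pi.one_apply, one_mul]
  have hpq : (2 : ℝ).HolderConjugate 2 := by
    rw [Real.holderConjugate_iff]; norm_num
  have h2 := ENNReal.lintegral_mul_le_Lp_mul_Lq μ hpq
    (f := ({s | C s ≠ 0} : Set Ω).indicator 1) (g := C)
    (measurable_one.indicator hm).aemeasurable hC.aemeasurable
  rw [← h1] at h2
  have h3 : ∫⁻ s, (({s | C s ≠ 0} : Set Ω).indicator (1 : Ω → ℝ≥0∞) s) ^ (2 : ℝ) ∂μ
      = μ {s | C s ≠ 0} := by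
    rw [← lintegral_indicator_one hm]
    refine lintegral_congr (fun s => ?_)
    by_cases h : C s = 0
    · have h' : s ∉ ({s | C s ≠ 0} : Set Ω) := fun h2 => h2 h
      rw [indicator_of_notMem h']; simp
    · have h' : s ∈ ({s | C s ≠ 0} : Set Ω) := h
      rw [indicator_of_mem h']; simp
  have h4 : ∫⁻ s, C s ^ (2 : ℝ) ∂μ = ∫⁻ s, C s ^ 2 ∂μ := by
    refine lintegral_congr (fun s => ?_)
    exact ENNReal.rpow_two (C s)
  rw [h3, h4] at h2
  calc (∫⁻ s, C s ∂μ) ^ 2 ≤ ((μ {s | C s ≠ 0}) ^ (1 / (2 : ℝ)) * (∫⁻ s, C s ^ 2 ∂μ) ^ (1 / (2 : ℝ))) ^ 2 :=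
        pow_le_pow_left' h2 2
    _ = μ {s | C s ≠ 0} * ∫⁻ s, C s ^ 2 ∂μ := by
        rw [mul_pow]
        congr 1
        · rw [← ENNReal.rpow_two, ← ENNReal.rpow_mul]; norm_num
        · rw [← ENNReal.rpow_two, ← ENNReal.rpow_mul]; norm_num
    _ ≤ μ E * ∫⁻ s, C s ^ 2 ∂μ := mul_le_mul' (measure_mono (fun s hs => hE s hs)) le_rfl

theorem tP : StmP := by
  intro V _ _ _ P A A' F n u v hl hne x y
  have hmX : ∀ z, Measurable[mm (Below u)] (fun s : List ℕ × V → V => cnt A s n u x z) :=
    fun z => cnt_meas A n u x z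
  have hmY : ∀ z, Measurable[mm (Below v)] (fun s : List ℕ × V → V => cnt A' s n v y z) :=
    fun z => cnt_meas A' n v y z
  have hmX' : ∀ z, Measurable (fun s : List ℕ × V → V => cnt A s n u x z) :=
    fun z => (hmX z).mono (mm_le _) le_rfl
  have hmY' : ∀ z, Measurable (fun s : List ℕ × V → V => cnt A' s n v y z) :=
    fun z => (hmY z).mono (mm_le _) le_rfl
  have hd : Disjoint (Below u : Set (List ℕ × V)) (Below v) :=
    (sub_disjoint hl hne).mono (below_sub u) (below_sub v)
  let C : (List ℕ × V → V) → ℝ≥0∞ := fun s => ∑ z ∈ F, cnt A s n u x z * cnt A' s n v y z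
  have hC : Measurable C := by
    refine Finset.measurable_sum F (fun z _ => ?_)
    exact (hmX' z).mul (hmY' z)
  have h1 : ∫⁻ s, C s ∂(stepMeasure P) = ∑ z ∈ F, gE P A n x z * gE P A' n y z := by
    show ∫⁻ s, ∑ z ∈ F, cnt A s n u x z * cnt A' s n v y z ∂(stepMeasure P) = _
    have hm1 : ∀ z ∈ F, Measurable (fun s : List ℕ × V → V => cnt A s n u x z * cnt A' s n v y z) :=
      fun z _ => mul_meas_gen (hmX' z) (hmY' z)
    rw [lintegral_finsetSum F hm1]
    refine Finset.sum_congr rfl (fun z _ => ?_)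
    rw [lintegral_mul_eq_lintegral_mul_lintegral_of_independent_measurableSpace
      (mm_le _) (mm_le _) (mm_indep P hd) (hmX z) (hmY z), cnt_mean, cnt_mean]
  have h2 : ∫⁻ s, C s ^ 2 ∂(stepMeasure P)
      = ∑ z ∈ F, ∑ z' ∈ F, mE P A n x z z' * mE P A' n y z z' := by
    have h3 : ∀ s, C s ^ 2 = ∑ z ∈ F, ∑ z' ∈ F, (cnt A s n u x z * cnt A s n u x z')
        * (cnt A' s n v y z * cnt A' s n v y z') := by
      intro s
      show (∑ z ∈ F, cnt A s n u x z * cnt A' s n v y z) ^ 2 = _
      rw [sq, Finset.sum_mul_sum]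
      refine Finset.sum_congr rfl (fun z _ => Finset.sum_congr rfl (fun z' _ => ?_))
      ring
    simp_rw [h3]
    have hm2 : ∀ z z' : V, Measurable (fun s : List ℕ × V → V =>
        (cnt A s n u x z * cnt A s n u x z') * (cnt A' s n v y z * cnt A' s n v y z')) :=
      fun z z' => mul_meas_gen (mul_meas_gen (hmX' z) (hmX' z')) (mul_meas_gen (hmY' z) (hmY' z'))
    have hm3 : ∀ z ∈ F, Measurable (fun s : List ℕ × V → V => ∑ z' ∈ F,
        (cnt A s n u x z * cnt A s n u x z') * (cnt A' s n v y z * cnt A' s n v y z')) :=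
      fun z _ => Finset.measurable_sum F (fun z' _ => hm2 z z')
    rw [lintegral_finsetSum F hm3]
    refine Finset.sum_congr rfl (fun z _ => ?_)
    rw [lintegral_finsetSum F (fun z' _ => hm2 z z')]
    refine Finset.sum_congr rfl (fun z' _ => ?_)
    rw [lintegral_mul_eq_lintegral_mul_lintegral_of_independent_measurableSpace
      (mm_le _) (mm_le _) (mm_indep P hd) (mul_meas_gen (hmX z) (hmX z'))
      (mul_meas_gen (hmY z) (hmY z')), cnt_sq, cnt_sq]
  have h5 := second_moment (stepMeasure P) C hC {s | ¬ Disjoint (Vis s u x) (Vis s v y)} (by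
    intro s hs
    have : ∃ z ∈ F, cnt A s n u x z * cnt A' s n v y z ≠ 0 := by
      by_contra hno
      push Not at hno
      exact hs (Finset.sum_eq_zero hno)
    obtain ⟨z, -, hz⟩ := this
    have hz1 := left_ne_zero_of_mul hz
    have hz2 := right_ne_zero_of_mul hz
    show ¬ Disjoint _ _
    rw [Set.not_disjoint_iff]
    exact ⟨z, cnt_vis A s n u x z hz1, cnt_vis A' s n v y z hz2⟩)
  rw [h1, h2] at h5
  exact h5

end Pool.Agent.R638.BRW
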