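import Pool.Agent.R638.BRW.Ind

/-! Piece Q. -/

set_option autoImplicit false

open MeasureTheory ProbabilityTheory Set Filter Topology
open scoped ENNReal NNReal

namespace Pool.Agent.R638.BRW

section Tools

variable {V : Type} [Countable V] [MeasurableSpace V] [DiscreteMeasurableSpace V]

theorem disj_meas (u v : List ℕ) (x y : V) (m : MeasurableSpace (List ℕ × V → V))
    (hu : mm (Below u) ≤ m) (hv : mm (Below v) ≤ m) :
    MeasurableSet[m] {s : List ℕ × V → V | Disjoint (Vis s u x) (Vis s v y)} := by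
  have h1 : {s : List ℕ × V → V | Disjoint (Vis s u x) (Vis s v y)}
      = ⋂ r : {r : List ℕ // Bin r}, ⋂ r' : {r : List ℕ // Bin r},
        {s | rpos s u x r.1 = rpos s v y r'.1}ᶜ := by
    ext s
    simp only [mem_iInter, mem_compl_iff, Set.mem_ofPred_eq, Set.disjoint_left, Subtype.forall]
    constructor
    · intro h r hr r' hr' he
      exact h ⟨r, hr, rfl⟩ ⟨r', hr', he.symm⟩
    · rintro h z ⟨r, hr, rfl⟩ ⟨r', hr', he⟩
      exact h r hr r' hr' he.symm
  rw [h1]
  refine MeasurableSet.iInter (fun r => MeasurableSet.iInter (fun r' => MeasurableSet.compl ?_))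
  have h2 : Measurable[m] (fun s : List ℕ × V → V => rpos s u x r.1) :=
    (rpos_meas u x r.1).mono hu le_rfl
  have h3 : Measurable[m] (fun s : List ℕ × V → V => rpos s v y r'.1) :=
    (rpos_meas v y r'.1).mono hv le_rfl
  have h4 : {s : List ℕ × V → V | rpos s u x r.1 = rpos s v y r'.1}
      = ⋃ z : V, ((fun s : List ℕ × V → V => rpos s u x r.1) ⁻¹' {z}
        ∩ (fun s : List ℕ × V → V => rpos s v y r'.1) ⁻¹' {z}) := by
    ext s
    simp only [Set.mem_ofPred_eq, mem_iUnion, mem_inter_iff, mem_preimage, mem_singleton_iff]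
    constructor
    · intro h; exact ⟨_, h, rfl⟩
    · rintro ⟨z, hz, hz'⟩; rw [hz, hz']
  rw [h4]
  exact MeasurableSet.iUnion (fun z => (h2 (MeasurableSet.of_discrete)).inter
    (h3 (MeasurableSet.of_discrete)))

/-- The event for the children number `a`. -/
def Ev (a : ℕ) (u v : List ℕ) (x y : V) : Set (List ℕ × V → V) :=
  {s | Disjoint (Vis s (a :: u) (s (a :: u, x))) (Vis s (a :: v) (s (a :: v, y)))}

open Classical in
theorem Ev_meas (a : ℕ) (u v : List ℕ) (x y : V) :
    MeasurableSet[mm (Sub (a :: u) ∪ Sub (a :: v))] (Ev a u v x y) := by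
  have hw1 : Measurable[mm (Sub (a :: u) ∪ Sub (a :: v))]
      (fun s : List ℕ × V → V => s (a :: u, x)) := mm_eval (Or.inl ⟨[], rfl⟩)
  have hw2 : Measurable[mm (Sub (a :: u) ∪ Sub (a :: v))]
      (fun s : List ℕ × V → V => s (a :: v, y)) := mm_eval (Or.inr ⟨[], rfl⟩)
  have h1 : Ev a u v x y = ⋃ x' : V, ⋃ y' : V,
      ((fun s : List ℕ × V → V => s (a :: u, x)) ⁻¹' {x'}
        ∩ ((fun s : List ℕ × V → V => s (a :: v, y)) ⁻¹' {y'}
          ∩ {s | Disjoint (Vis s (a :: u) x') (Vis s (a :: v) y')})) := by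
    ext s
    simp only [Ev, Set.mem_ofPred_eq, mem_iUnion, mem_inter_iff, mem_preimage, mem_singleton_iff]
    constructor
    · intro h; exact ⟨_, _, rfl, rfl, h⟩
    · rintro ⟨x', y', rfl, rfl, h⟩; exact h
  rw [h1]
  refine MeasurableSet.iUnion (fun x' => MeasurableSet.iUnion (fun y' => ?_))
  refine (hw1 (MeasurableSet.of_discrete)).inter ((hw2 (MeasurableSet.of_discrete)).inter ?_)
  exact disj_meas _ _ _ _ _ (mm_mono ((below_sub _).trans subset_union_left))
    (mm_mono ((below_sub _).trans subset_union_right))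

open Classical in
theorem Ev_le (P : V → PMF V) (q : ℝ≥0∞) (a : ℕ) (u v : List ℕ) (x y : V)
    (hl : u.length = v.length) (hne : u ≠ v)
    (hq : ∀ x' y', stepMeasure P {s | Disjoint (Vis s (a :: u) x') (Vis s (a :: v) y')} ≤ q) :
    stepMeasure P (Ev a u v x y) ≤ q := by
  have hne' : a :: u ≠ a :: v := fun h => hne (List.cons.inj h).2
  have hl' : (a :: u).length = (a :: v).length := by simp [hl]
  let D : V → V → Set (List ℕ × V → V) := fun x' y' =>
    {s | Disjoint (Vis s (a :: u) x') (Vis s (a :: v) y')}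
  -- second conditioning
  have h2 : ∀ x', ∫⁻ s, (D x' (s (a :: v, y))).indicator 1 s ∂(stepMeasure P) ≤ q := by
    intro x'
    have hw : ((a :: v, y) : List ℕ × V) ∉ (Below (a :: u) ∪ Below (a :: v) : Set (List ℕ × V)) := by
      rintro (h | h)
      · exact not_below hl'.symm y h
      · exact not_below rfl y h
    have h3 := lint_comp P hw (F := fun y' s => (D x' y').indicator 1 s) (fun y' =>
      ind_meas (disj_meas _ _ _ _ _ (mm_mono subset_union_left)
        (mm_mono subset_union_right)))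
    rw [h3]
    have h4 : ∀ y', ∫⁻ s, (D x' y').indicator 1 s ∂(stepMeasure P) ≤ q := by
      intro y'
      rw [lintegral_indicator_one]
      · exact hq x' y'
      · exact disj_meas _ _ _ _ _ (mm_le _) (mm_le _)
    calc ∑' y', P (a :: v, y).2 y' * ∫⁻ s, (D x' y').indicator 1 s ∂(stepMeasure P)
        ≤ ∑' y', P y y' * q := ENNReal.tsum_le_tsum (fun y' => mul_le_mul' le_rfl (h4 y'))
      _ = q := by rw [ENNReal.tsum_mul_right, PMF.tsum_coe, one_mul]
  have hw : ((a :: u, x) : List ℕ × V) ∉ (Below (a :: u) ∪ Sub (a :: v) : Set (List ℕ × V)) := by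
    rintro (h | ⟨r, hr⟩)
    · exact not_below rfl x h
    · have : a :: u = r ++ (a :: v) := hr
      have h5 := congrArg List.length this
      rw [List.length_append] at h5
      have h6 : r = [] := List.length_eq_zero_iff.1 (by omega)
      rw [h6] at this
      exact hne' this
  have h1 : stepMeasure P (Ev a u v x y)
      = ∫⁻ s, (D (s (a :: u, x)) (s (a :: v, y))).indicator 1 s ∂(stepMeasure P) := by
    rw [← lintegral_indicator_one ((mm_le _) _ (Ev_meas a u v x y))]
    refine lintegral_congr (fun s => ?_)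
    by_cases h : s ∈ Ev a u v x y
    · rw [indicator_of_mem h]
      have h' : s ∈ D (s (a :: u, x)) (s (a :: v, y)) := h
      rw [indicator_of_mem h']
    · rw [indicator_of_notMem h]
      have h' : s ∉ D (s (a :: u, x)) (s (a :: v, y)) := h
      rw [indicator_of_notMem h']
  rw [h1, lint_comp P hw (F := fun x' s => (D x' (s (a :: v, y))).indicator 1 s)]
  · calc ∑' x', P (a :: u, x).2 x' * ∫⁻ s, (D x' (s (a :: v, y))).indicator 1 s ∂(stepMeasure P)
        ≤ ∑' x', P x x' * q := ENNReal.tsum_le_tsum (fun x' => mul_le_mul' le_rfl (h2 x'))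
      _ = q := by rw [ENNReal.tsum_mul_right, PMF.tsum_coe, one_mul]
  · intro x'
    refine meas_comp_gen (m := mm (Below (a :: u) ∪ Sub (a :: v)))
      (w := fun s : List ℕ × V → V => s (a :: v, y)) (mm_eval (Or.inr ⟨[], rfl⟩))
      (F := fun y' s => (D x' y').indicator 1 s) (fun y' => ?_)
    exact ind_meas (disj_meas _ _ _ _ _ (mm_mono subset_union_left)
      (mm_mono ((below_sub _).trans subset_union_right)))

end Tools

theorem tQ : StmQ := by
  intro V _ _ _ P c hc hbound u0 v0 x0 y0 hl0 hne0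
  let I : Type := {p : (List ℕ × List ℕ) × (V × V) // p.1.1.length = p.1.2.length ∧ p.1.1 ≠ p.1.2}
  let q : ℝ≥0∞ := ⨆ p : I, stepMeasure P {s | Disjoint (Vis s p.1.1.1 p.1.2.1) (Vis s p.1.1.2 p.1.2.2)}
  have hle : ∀ (u v : List ℕ) (x y : V), u.length = v.length → u ≠ v →
      stepMeasure P {s | Disjoint (Vis s u x) (Vis s v y)} ≤ q := by
    intro u v x y hl hne
    exact le_iSup (fun p : I => stepMeasure P {s | Disjoint (Vis s p.1.1.1 p.1.2.1)
      (Vis s p.1.1.2 p.1.2.2)}) ⟨((u, v), (x, y)), hl, hne⟩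
  have hqc : q ≤ c := iSup_le (fun p => hbound _ _ _ _ p.2.1 p.2.2)
  have hqq : q ≤ q * q := by
    refine iSup_le (fun p => ?_)
    obtain ⟨⟨⟨u, v⟩, ⟨x, y⟩⟩, hl, hne⟩ := p
    simp only at hl hne ⊢
    have hsub : {s : List ℕ × V → V | Disjoint (Vis s u x) (Vis s v y)}
        ⊆ Ev 0 u v x y ∩ Ev 1 u v x y := by
      intro s hs
      exact ⟨hs.mono (vis_child s 0 (by norm_num) u x) (vis_child s 0 (by norm_num) v y),
        hs.mono (vis_child s 1 (by norm_num) u x) (vis_child s 1 (by norm_num) v y)⟩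
    have hdisj : Disjoint (Sub (0 :: u) ∪ Sub (0 :: v) : Set (List ℕ × V))
        (Sub (1 :: u) ∪ Sub (1 :: v)) := by
      have h01 : ∀ a b : List ℕ, a.length = b.length →
          Disjoint (Sub (0 :: a) : Set (List ℕ × V)) (Sub (1 :: b)) := by
        intro a b hab
        apply sub_disjoint
        · simp [hab]
        · simp
      rw [Set.disjoint_union_left, Set.disjoint_union_right, Set.disjoint_union_right]
      exact ⟨⟨h01 _ _ rfl, h01 _ _ hl⟩, ⟨h01 _ _ hl.symm, h01 _ _ rfl⟩⟩
    have hind := (Indep_iff _ _ _).1 (mm_indep P hdisj) _ _ (Ev_meas 0 u v x y) (Ev_meas 1 u v x y)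
    calc stepMeasure P {s : List ℕ × V → V | Disjoint (Vis s u x) (Vis s v y)}
        ≤ stepMeasure P (Ev 0 u v x y ∩ Ev 1 u v x y) := measure_mono hsub
      _ = stepMeasure P (Ev 0 u v x y) * stepMeasure P (Ev 1 u v x y) := hind
      _ ≤ q * q := mul_le_mul'
          (Ev_le P q 0 u v x y hl hne (fun x' y' => hle _ _ _ _ (by simp [hl])
            (fun h => hne (List.cons.inj h).2)))
          (Ev_le P q 1 u v x y hl hne (fun x' y' => hle _ _ _ _ (by simp [hl])
            (fun h => hne (List.cons.inj h).2)))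
  have hq1 : q < 1 := lt_of_le_of_lt hqc hc
  have hq0 : q = 0 := by
    by_contra h0
    have hqt : q ≠ ⊤ := ne_top_of_lt hq1
    have h1 : q * q < q * 1 := ENNReal.mul_lt_mul_right h0 hqt hq1
    rw [mul_one] at h1
    exact absurd hqq (not_le.2 h1)
  exact le_antisymm (by rw [← hq0]; exact hle u0 v0 x0 y0 hl0 hne0) bot_le

end Pool.Agent.R638.BRW
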