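import Pool.Agent.R638.BRW.Defs

/-! Exact statements of the pieces of the proof for MP_b68431_pr (see notes.md). -/

open MeasureTheory ProbabilityTheory Set Filter Topology
open scoped ENNReal NNReal

namespace Pool.Agent.R638.BRW

/-! ### General notions -/

section Gen

variable {V : Type}

/-- The position of the particle `r ++ u` when the particle `u` is at `x`. -/
def rpos (s : List ℕ × V → V) (u : List ℕ) (x : V) : List ℕ → V
  | [] => x
  | k :: r => s (k :: (r ++ u), rpos s u x r)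

/-- Binary words. -/
def Bin (r : List ℕ) : Prop := ∀ k ∈ r, k < 2

/-- The vertices visited by the binary descendants of `u` when `u` is at `x`. -/
def Vis (s : List ℕ × V → V) (u : List ℕ) (x : V) : Set V := {z | ∃ r, Bin r ∧ rpos s u x r = z}

open Classical in
/-- The number of visits to `z` in the first `n` generations below `u` (at `x`) by particles whose
ancestors all stay in `A`. -/
noncomputable def cnt (A : Set V) (s : List ℕ × V → V) : ℕ → List ℕ → V → V → ℝ≥0∞
  | 0, _, _, _ => 0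
  | n + 1, u, x, z => if x ∈ A then (if x = z then 1 else 0) +
      (cnt A s n (0 :: u) (s (0 :: u, x)) z + cnt A s n (1 :: u) (s (1 :: u, x)) z) else 0

open Classical in
/-- First moments of `cnt`. -/
noncomputable def gE (P : V → PMF V) (A : Set V) : ℕ → V → V → ℝ≥0∞
  | 0, _, _ => 0
  | n + 1, x, z => if x ∈ A then (if x = z then 1 else 0) + 2 * ∑' y, P x y * gE P A n y z else 0

open Classical in
/-- Second moments of `cnt`. -/
noncomputable def mE (P : V → PMF V) (A : Set V) : ℕ → V → V → V → ℝ≥0∞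
  | 0, _, _, _ => 0
  | n + 1, x, z, z' => if x ∈ A then
      (if x = z ∧ x = z' then 1 else 0)
      + (if x = z then 2 * ∑' y, P x y * gE P A n y z' else 0)
      + (if x = z' then 2 * ∑' y, P x y * gE P A n y z else 0)
      + 2 * (∑' y, P x y * mE P A n y z z')
      + 2 * ((∑' y, P x y * gE P A n y z) * (∑' y, P x y * gE P A n y z'))
    else 0

end Gen

/-- PIECE P (probability, second moment method). -/
def StmP : Prop := ∀ (V : Type) [Countable V] [MeasurableSpace V] [DiscreteMeasurableSpace V]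
  (P : V → PMF V) (A A' : Set V) (F : Finset V) (n : ℕ) (u v : List ℕ), u.length = v.length →
  u ≠ v → ∀ x y : V,
  (∑ z ∈ F, gE P A n x z * gE P A' n y z) ^ 2 ≤
    stepMeasure P {s | ¬ Disjoint (Vis s u x) (Vis s v y)} *
      ∑ z ∈ F, ∑ z' ∈ F, mE P A n x z z' * mE P A' n y z z'

/-- PIECE Q (from a uniform bound to probability zero: `q ≤ q ^ 2`). -/
def StmQ : Prop := ∀ (V : Type) [Countable V] [MeasurableSpace V] [DiscreteMeasurableSpace V]
  (P : V → PMF V) (c : ℝ≥0∞), c < 1 →
  (∀ (u v : List ℕ) (x y : V), u.length = v.length → u ≠ v →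
    stepMeasure P {s | Disjoint (Vis s u x) (Vis s v y)} ≤ c) →
  ∀ (u v : List ℕ) (x y : V), u.length = v.length → u ≠ v →
    stepMeasure P {s | Disjoint (Vis s u x) (Vis s v y)} = 0

/-- PIECE T (finite expected number of visits implies finitely many visits). -/
def StmT : Prop := ∀ (V : Type) [Countable V] [MeasurableSpace V] [DiscreteMeasurableSpace V]
  (P : V → PMF V) (x z : V), ∑' n, 2 ^ n * stepProb P n x z ≠ ⊤ →
  ∀ᵐ s ∂(stepMeasure P), {u : List ℕ | Bin u ∧ pos s x u = z}.Finite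

/-- PIECE D (deterministic: one end). -/
def StmD : Prop := ∀ (V : Type) (N : List ℕ → ℕ) (s : List ℕ × V → V) (x : V), (∀ u, N u = 2) →
  (∀ z, {u : List ℕ | Bin u ∧ pos s x u = z}.Finite) →
  (∀ (u v : List ℕ) (y y' : V), u.length = v.length → u ≠ v →
    ¬ Disjoint (Vis s u y) (Vis s v y')) →
  numEnds (trace N s x) = 1

/-! ### The example -/

/-- `al k = (α_k, β_k)` with `α_k + β_k √3 = (2 + √3)^(k+1)`. -/
def al : ℕ → ℕ × ℕ
  | 0 => (2, 1)
  | k + 1 => (2 * (al k).1 + 3 * (al k).2, (al k).1 + 2 * (al k).2)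

/-- `β_k`: 1, 4, 15, 56, ... -/
def be (k : ℕ) : ℕ := (al k).2

/-- The vertices: layer `k` has `β_k ^ 2` vertices. -/
def VV : Type := Σ k : ℕ, Fin (be k ^ 2)

instance : MeasurableSpace VV := ⊤

/-- The layer. -/
def lay (x : VV) : ℕ := x.1

/-- Two vertices are adjacent when their layers are consecutive. -/
def GG : SimpleGraph VV where
  Adj x y := lay y = lay x + 1 ∨ lay x = lay y + 1
  symm := ⟨fun _ _ h => h.symm⟩
  loopless := ⟨fun x h => by rcases h with h | h <;> omega⟩

open Classical in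
/-- The transition probabilities `1 / (4 β_k β_(k+1))` between consecutive layers. -/
noncomputable def pp (x y : VV) : ℝ≥0∞ :=
  if GG.Adj x y then (4 * (be (lay x) : ℝ≥0∞) * be (lay y))⁻¹ else 0

/-- PIECE K1: `pp` is a transition kernel, and the sums of functions of the layer. -/
def StmK1 : Prop := (∀ x, ∑' y, pp x y = 1) ∧
  ∀ (x : VV) (φ : ℕ → ℝ≥0∞), ∑' y, pp x y * φ (lay y) =
    (be (lay x + 1) * φ (lay x + 1) +
      (if lay x = 0 then 0 else be (lay x - 1) * φ (lay x - 1))) / (4 * be (lay x))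

/-- The layers `k0 < k ≤ k0 + M`, as a finite set of vertices. -/
noncomputable def layers (k0 M : ℕ) : Finset VV :=
  (Finset.Ioc k0 (k0 + M)).sigma fun k => (Finset.univ : Finset (Fin (be k ^ 2)))

/-- The vertices of layer at least `j`. -/
def AA (j : ℕ) : Set VV := {x | j ≤ lay x}

/-- The random walk Green function of SRW on `ℕ` killed at `-1`, truncated at time `n`. -/
noncomputable def Gam : ℕ → ℕ → ℕ → ℝ
  | 0, _, _ => 0
  | n + 1, m, r => (if m = r then 1 else 0) +
      (Gam n (m + 1) r + (if m = 0 then 0 else Gam n (m - 1) r)) / 2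

/-- PIECE A1 (real analysis of `Gam`). -/
def StmA1 : Prop := (∀ n m r, 0 ≤ Gam n m r ∧ Gam n m r ≤ 2 * (min m r + 1) ∧
    Gam n m r ≤ Gam (n + 1) m r) ∧
  (∀ m r, Tendsto (fun n => Gam n m r) atTop (𝓝 (2 * (min m r + 1))))

/-- PIECE K2 (properties of the kernel). -/
def StmK2 : Prop := ∀ P : VV → PMF VV, (∀ x y, P x y = pp x y) →
  Irred P ∧ (∀ x y n, stepProb P n x y = stepProb P n y x) ∧
  (∀ x y, specRad P x y = 1 / 2) ∧ GG.Connected ∧ (∀ x, (GG.neighborSet x).Finite) ∧
  Infinite VV ∧ Countable VV ∧ ∀ x z, ∑' n, 2 ^ n * stepProb P n x z ≠ ⊤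

open Classical in
/-- PIECE A2 (first and second moments). -/
def StmA2 : Prop := ∀ P : VV → PMF VV, (∀ x y, P x y = pp x y) → ∀ (j : ℕ) (x : VV), lay x = j →
  (∀ n z z', j < lay z → j < lay z' → mE P (AA j) n x z z' ≤
    (if z = z' then 2 / ((be j : ℝ≥0∞) * be (lay z)) else 0) +
      35 / ((be j : ℝ≥0∞) ^ 2 * be (lay z) * be (lay z'))) ∧
  ∀ z, j < lay z → Tendsto (fun n => gE P (AA j) n x z) atTop
    (𝓝 (2 / ((be j : ℝ≥0∞) * be (lay z))))

/-- PIECE C (uniform lower bound for the probability of a meeting). -/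
def StmC : Prop := ∀ P : VV → PMF VV, (∀ x y, P x y = pp x y) →
  ∀ (u v : List ℕ) (x y : VV), u.length = v.length → u ≠ v →
  stepMeasure P {s | Disjoint (Vis s u x) (Vis s v y)} ≤ 1 - 16 / 1369

/-- The main result. -/
def Main : Prop := ∃ (V : Type) (_ : Infinite V) (_ : Countable V) (_ : MeasurableSpace V)
  (_ : DiscreteMeasurableSpace V) (G : SimpleGraph V) (P : V → PMF V) (ν : PMF ℕ) (ρ : ℝ≥0∞),
  G.Connected ∧ (∀ x, (G.neighborSet x).Finite) ∧ NearestNeighbour G P ∧ Irred P ∧
  QuasiSymmetric P ∧ (∀ x y, specRad P x y = ρ) ∧ ρ < 1 ∧ ν 0 = 0 ∧ mean ν = ρ⁻¹ ∧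
  ∀ x, ∀ᵐ ω ∂(brwMeasure P ν), numEnds (trace ω.1 ω.2 x) = 1

end Pool.Agent.R638.BRW
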