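import Pool.Agent.R638.BRW.Stm

/-! Piece T: finite expected number of visits implies finitely many visits. -/

open MeasureTheory ProbabilityTheory Set Filter Topology
open scoped ENNReal NNReal

namespace Pool.Agent.R638.BRW

namespace Taux

variable {V : Type}

open Classical in
theorem stepProb_succ' (P : V → PMF V) (n : ℕ) : ∀ x z,
    stepProb P (n + 1) x z = ∑' y, stepProb P n x y * P y z := by
  induction n with
  | zero =>
    intro x z
    rw [stepProb]
    have h1 : ∀ w, P x w * stepProb P 0 w z = if w = z then P x w else 0 := by
      intro w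
      rw [stepProb]
      split_ifs <;> simp
    have h2 : ∀ y, stepProb P 0 x y * P y z = if y = x then P y z else 0 := by
      intro y
      rw [stepProb]
      by_cases h : x = y
      · rw [if_pos h, if_pos h.symm, one_mul]
      · rw [if_neg h, if_neg (Ne.symm h), zero_mul]
    rw [tsum_congr h1, tsum_congr h2, tsum_ite_eq, tsum_ite_eq]
  | succ n ih =>
    intro x z
    rw [stepProb]
    have h1 : ∀ w, P x w * stepProb P (n + 1) w z = ∑' y, P x w * (stepProb P n w y * P y z) := by
      intro w
      rw [ih w z, ENNReal.tsum_mul_left]
    rw [tsum_congr h1, ENNReal.tsum_comm]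
    refine tsum_congr fun y => ?_
    rw [stepProb, ← ENNReal.tsum_mul_right]
    refine tsum_congr fun w => ?_
    ring

variable [MeasurableSpace V]

/-- the coordinate σ-algebras -/
abbrev mc (V : Type) [MeasurableSpace V] (i : List ℕ × V) : MeasurableSpace (List ℕ × V → V) :=
  MeasurableSpace.comap (fun s => s i) inferInstance

/-- the σ-algebra of the first generations -/
abbrev mg (V : Type) [MeasurableSpace V] (n : ℕ) : MeasurableSpace (List ℕ × V → V) :=
  ⨆ i ∈ {w : List ℕ × V | w.1.length ≤ n}, mc V i

theorem mg_mono {n n' : ℕ} (h : n ≤ n') : mg V n ≤ mg V n' :=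
  biSup_mono fun _ hi => le_trans hi h

theorem mc_le (i : List ℕ × V) :
    mc V i ≤ (inferInstance : MeasurableSpace (List ℕ × V → V)) :=
  (measurable_pi_apply i).comap_le

theorem mg_le (n : ℕ) :
    mg V n ≤ (inferInstance : MeasurableSpace (List ℕ × V → V)) :=
  iSup₂_le fun i _ => mc_le i

variable [Countable V] [DiscreteMeasurableSpace V]

omit [MeasurableSpace V] [Countable V] [DiscreteMeasurableSpace V] in
theorem set_eq (x : V) (k : ℕ) (u : List ℕ) (z : V) : {s : List ℕ × V → V | pos s x (k :: u) = z} =
    ⋃ y, ({s | pos s x u = y} ∩ {s | s (k :: u, y) = z}) := by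
  ext s
  simp [pos]

theorem pos_meas (x : V) (u : List ℕ) :
    ∀ z, MeasurableSet[mg V u.length] {s : List ℕ × V → V | pos s x u = z} := by
  induction u with
  | nil =>
    intro z
    simp only [pos]
    exact @MeasurableSet.const _ (mg V _) _
  | cons k u ih =>
    intro z
    rw [set_eq]
    refine @MeasurableSet.iUnion _ _ (mg V _) _ _ fun y => ?_
    refine @MeasurableSet.inter _ (mg V _) _ _ (mg_mono (by simp) _ (ih y)) ?_
    have h1 : mc V (k :: u, y) ≤ mg V (k :: u).length :=
      le_iSup₂_of_le (f := fun i (_ : i ∈ {w : List ℕ × V | w.1.length ≤ (k :: u).length}) => mc V i)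
        (k :: u, y) (show (k :: u).length ≤ (k :: u).length from le_rfl) le_rfl
    exact h1 _ ⟨{z}, MeasurableSet.singleton z, rfl⟩

instance (P : V → PMF V) : IsProbabilityMeasure (stepMeasure P) := by
  unfold stepMeasure; infer_instance

theorem law (P : V → PMF V) (x : V) (u : List ℕ) :
    ∀ z, stepMeasure P {s | pos s x u = z} = stepProb P u.length x z := by
  classical
  induction u with
  | nil =>
    intro z
    simp only [pos, List.length_nil, stepProb]
    by_cases h : x = z
    · simp [h]
    · simp [h]
  | cons k u ih =>
    intro z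
    rw [set_eq, List.length_cons, stepProb_succ', measure_iUnion]
    · refine tsum_congr fun y => ?_
      have hind : iIndep (fun i => mc V i) (stepMeasure P) := by
        have := iIndepFun_infinitePi (P := fun w : List ℕ × V => (P w.2).toMeasure)
          (X := fun _ => id) (fun _ => measurable_id)
        exact this
      have h1 := indep_iSup_of_disjoint (fun i => mc_le i) hind
        (S := {w : List ℕ × V | w.1.length ≤ u.length}) (T := {(k :: u, y)}) (by
          rw [Set.disjoint_singleton_right]
          simp)
      rw [Indep_iff] at h1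
      have h2 : MeasurableSet[⨆ i ∈ ({(k :: u, y)} : Set (List ℕ × V)), mc V i]
          {s : List ℕ × V → V | s (k :: u, y) = z} := by
        have : (⨆ i ∈ ({(k :: u, y)} : Set (List ℕ × V)), mc V i) = mc V (k :: u, y) := by simp
        rw [this]
        exact ⟨{z}, MeasurableSet.singleton z, rfl⟩
      rw [h1 _ _ (pos_meas x u y) h2, ih y]
      congr 1
      have h3 := (measurePreserving_eval_infinitePi (fun w : List ℕ × V => (P w.2).toMeasure)
        (k :: u, y)).measure_preimage (s := {z}) (MeasurableSet.singleton z).nullMeasurableSet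
      have h4 : stepMeasure P {s | s (k :: u, y) = z} = (P y).toMeasure {z} := h3
      rw [h4, PMF.toMeasure_apply_singleton _ _ (MeasurableSet.singleton z)]
    · intro y y' hyy
      refine Set.disjoint_left.2 fun s h1 h2 => hyy ?_
      exact h1.1.symm.trans h2.1
    · intro y
      exact (mg_le _ _ (pos_meas x u y)).inter
        (measurableSet_eq_fun (measurable_pi_apply _) measurable_const)

end Taux

open Taux in
theorem tT : StmT := by
  intro V _ _ _ P x z h
  have hs : ∑' l : List (Fin 2), stepMeasure P {s | pos s x (l.map Fin.val) = z} ≠ ⊤ := by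
    have h1 : ∑' l : List (Fin 2), stepMeasure P {s | pos s x (l.map Fin.val) = z} =
        ∑' n, 2 ^ n * stepProb P n x z := by
      have h2 : ∀ l : List (Fin 2), stepMeasure P {s | pos s x (l.map Fin.val) = z} =
          stepProb P l.length x z := by
        intro l
        rw [law, List.length_map]
      rw [tsum_congr h2, ← (Equiv.sigmaFiberEquiv (List.length : List (Fin 2) → ℕ)).tsum_eq,
        ENNReal.tsum_sigma']
      refine tsum_congr fun n => ?_
      have h3 : ∀ b : {l : List (Fin 2) // l.length = n},
          stepProb P (((Equiv.sigmaFiberEquiv (List.length : List (Fin 2) → ℕ)) ⟨n, b⟩).length) x z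
            = stepProb P n x z := by
        intro b
        rw [Equiv.sigmaFiberEquiv_apply]
        simp only [b.2]
      rw [tsum_congr h3]
      letI : Fintype {l : List (Fin 2) // l.length = n} :=
        (inferInstance : Fintype (List.Vector (Fin 2) n))
      have h4 : Fintype.card {l : List (Fin 2) // l.length = n} = 2 ^ n := by
        have := card_vector (α := Fin 2) n
        rw [Fintype.card_fin] at this
        exact this
      rw [tsum_fintype, Finset.sum_const, Finset.card_univ, h4, nsmul_eq_mul]
      push_cast
      rfl
    rw [h1]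
    exact h
  filter_upwards [ae_finite_setOfPred_mem hs] with s hs'
  refine (hs'.image (List.map Fin.val)).subset ?_
  rintro u ⟨hu, hz⟩
  have hu' : ∀ k ∈ u, k < 2 := hu
  refine ⟨u.pmap (fun k hk => (⟨k, hk⟩ : Fin 2)) hu', ?_, ?_⟩
  · simp only [Set.mem_ofPred_eq, List.map_pmap, List.pmap_eq_map, List.map_id']
    exact hz
  · simp only [List.map_pmap, List.pmap_eq_map, List.map_id']

end Pool.Agent.R638.BRW
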